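import Pool.Agent.H1.UFC.Rules

set_option autoImplicit false

/-!
# Commuting pairs in universally flexible loops

The derivation below was found by a ground closure program; every step is a product rule, a
cancellation or one instance of universal flexibility.
-/

namespace H48UFN

open H16UFL H1UFC

universe u

variable {Q : Type u} [Lp Q]

theorem cCP (hU : UF Q) (x g X G p q P s r : Q) (hp : x * g = p) (hc : g * x = p)
    (hX : x * X = 1) (hG : g * G = 1) (hq : x * p = q) (hP : q * P = 1) (hs : G * X = s)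
    (hr : X * s = r) : P = r := by
  obtain ⟨n42, t142⟩ : ∃ c, X * G = c := ⟨_, rfl⟩
  obtain ⟨n75, t259⟩ : ∃ c, n42 * x = c := ⟨_, rfl⟩
  obtain ⟨n133, t471⟩ : ∃ c, X * n75 = c := ⟨_, rfl⟩
  obtain ⟨n134, t474⟩ : ∃ a, a * x = n133 := ⟨_, Lp.div_mul' _ _⟩
  obtain ⟨n10, t30⟩ : ∃ c, x * x = c := ⟨_, rfl⟩
  obtain ⟨n11, t33⟩ : ∃ c, n10 * X = c := ⟨_, rfl⟩
  obtain ⟨n225, t798⟩ : ∃ c, P * n11 = c := ⟨_, rfl⟩
  have t35 : n11 * (1 : Q) = n11 := Lp.mul_one' _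
  obtain ⟨n12, t36⟩ : ∃ b, x * b = n11 := ⟨_, Lp.mul_ldiv _ _⟩
  have t0 : (1 : Q) * (1 : Q) = (1 : Q) := Lp.one_mul' _
  have t3 : x * X = (1 : Q) := hX
  have t32 : n10 * (1 : Q) = n10 := Lp.mul_one' _
  have t1 : (1 : Q) * x = x := Lp.one_mul' _
  have t2 : x * (1 : Q) = x := Lp.mul_one' _
  have t39 : (1 : Q) * n12 = (1 : Q) := ufr hU t0 t3 t30 t32 t1 t2 t33 t36 t3
  have m0 : (1 : Q) = n12 := mb t0 t39 rfl rfl
  have m1 : n11 = x := ma t35 t36 (m0) rfl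
  obtain ⟨n59, t201⟩ : ∃ a, a * p = g := ⟨_, Lp.div_mul' _ _⟩
  obtain ⟨n110, t388⟩ : ∃ c, n59 * x = c := ⟨_, rfl⟩
  obtain ⟨n224, t795⟩ : ∃ b, p * b = n110 := ⟨_, Lp.mul_ldiv _ _⟩
  obtain ⟨n17, t53⟩ : ∃ c, g * X = c := ⟨_, rfl⟩
  obtain ⟨n15, t47⟩ : ∃ c, p * X = c := ⟨_, rfl⟩
  obtain ⟨n35, t118⟩ : ∃ b, g * b = n15 := ⟨_, Lp.mul_ldiv _ _⟩
  obtain ⟨n36, t121⟩ : ∃ a, a * n17 = n35 := ⟨_, Lp.div_mul' _ _⟩
  obtain ⟨n37, t124⟩ : ∃ c, n36 * X = c := ⟨_, rfl⟩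
  obtain ⟨n62, t212⟩ : ∃ b, s * b = n37 := ⟨_, Lp.mul_ldiv _ _⟩
  obtain ⟨n481, t1689⟩ : ∃ b, n62 * b = n11 := ⟨_, Lp.mul_ldiv _ _⟩
  obtain ⟨n31, t103⟩ : ∃ b, p * b = n11 := ⟨_, Lp.mul_ldiv _ _⟩
  obtain ⟨n27, t89⟩ : ∃ c, p * n11 = c := ⟨_, rfl⟩
  obtain ⟨n79, t273⟩ : ∃ a, a * n27 = n11 := ⟨_, Lp.div_mul' _ _⟩
  obtain ⟨n148, t526⟩ : ∃ c, n79 * n31 = c := ⟨_, rfl⟩
  obtain ⟨n46, t155⟩ : ∃ b, G * b = n11 := ⟨_, Lp.mul_ldiv _ _⟩
  obtain ⟨n44, t149⟩ : ∃ c, G * x = c := ⟨_, rfl⟩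
  obtain ⟨n137, t485⟩ : ∃ a, a * n46 = n44 := ⟨_, Lp.div_mul' _ _⟩
  obtain ⟨n483, t1697⟩ : ∃ a, a * n148 = n137 := ⟨_, Lp.div_mul' _ _⟩
  obtain ⟨n28, t93⟩ : ∃ a, a * g = n11 := ⟨_, Lp.div_mul' _ _⟩
  obtain ⟨n284, t1005⟩ : ∃ c, G * n28 = c := ⟨_, rfl⟩
  obtain ⟨n285, t1008⟩ : ∃ c, n284 * g = c := ⟨_, rfl⟩
  obtain ⟨n401, t1416⟩ : ∃ c, n285 * n285 = c := ⟨_, rfl⟩
  obtain ⟨n402, t1419⟩ : ∃ b, G * b = n401 := ⟨_, Lp.mul_ldiv _ _⟩
  obtain ⟨n403, t1422⟩ : ∃ a, a * n44 = n402 := ⟨_, Lp.div_mul' _ _⟩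
  obtain ⟨n18, t57⟩ : ∃ c, x * G = c := ⟨_, rfl⟩
  obtain ⟨n310, t1096⟩ : ∃ c, n18 * n18 = c := ⟨_, rfl⟩
  obtain ⟨n311, t1099⟩ : ∃ b, x * b = n310 := ⟨_, Lp.mul_ldiv _ _⟩
  obtain ⟨n312, t1102⟩ : ∃ a, a * n18 = n311 := ⟨_, Lp.div_mul' _ _⟩
  obtain ⟨n482, t1693⟩ : ∃ c, n403 * n312 = c := ⟨_, rfl⟩
  obtain ⟨n484, t1700⟩ : ∃ c, n483 * n31 = c := ⟨_, rfl⟩
  obtain ⟨n68, t234⟩ : ∃ c, g * n18 = c := ⟨_, rfl⟩
  obtain ⟨n230, t816⟩ : ∃ a, a * n68 = n18 := ⟨_, Lp.div_mul' _ _⟩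
  obtain ⟨n232, t822⟩ : ∃ c, n230 * n18 = c := ⟨_, rfl⟩
  have t823 : (1 : Q) * n232 = n232 := Lp.one_mul' _
  obtain ⟨n231, t819⟩ : ∃ b, g * b = n18 := ⟨_, Lp.mul_ldiv _ _⟩
  obtain ⟨n92, t320⟩ : ∃ c, n31 * n31 = c := ⟨_, rfl⟩
  obtain ⟨n197, t700⟩ : ∃ c, p * n92 = c := ⟨_, rfl⟩
  obtain ⟨n198, t703⟩ : ∃ a, a * n31 = n197 := ⟨_, Lp.div_mul' _ _⟩
  have t704 : (1 : Q) * n198 = n198 := Lp.one_mul' _
  obtain ⟨n61, t208⟩ : ∃ b, p * b = g := ⟨_, Lp.mul_ldiv _ _⟩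
  obtain ⟨n156, t554⟩ : ∃ c, n61 * G = c := ⟨_, rfl⟩
  obtain ⟨n157, t557⟩ : ∃ c, n156 * p = c := ⟨_, rfl⟩
  obtain ⟨n158, t560⟩ : ∃ b, n61 * b = n157 := ⟨_, Lp.mul_ldiv _ _⟩
  obtain ⟨n199, t706⟩ : ∃ c, n198 * n158 = c := ⟨_, rfl⟩
  obtain ⟨n121, t427⟩ : ∃ c, n68 * n11 = c := ⟨_, rfl⟩
  obtain ⟨n69, t237⟩ : ∃ a, a * G = n68 := ⟨_, Lp.div_mul' _ _⟩
  have t9 : g * G = (1 : Q) := hG
  have t58 : (1 : Q) * n18 = n18 := Lp.one_mul' _
  have t34 : (1 : Q) * n11 = n11 := Lp.one_mul' _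
  have t239 : n69 * (1 : Q) = n69 := Lp.mul_one' _
  have t240 : g * n11 = n69 := ufr hU t9 t39 t58 t57 t234 t237 t36 t34 (rt t239 rfl (m0) rfl)
  obtain ⟨n38, t129⟩ : ∃ c, X * g = c := ⟨_, rfl⟩
  obtain ⟨n85, t295⟩ : ∃ c, n28 * n38 = c := ⟨_, rfl⟩
  obtain ⟨n86, t298⟩ : ∃ a, a * g = n85 := ⟨_, Lp.div_mul' _ _⟩
  obtain ⟨n88, t305⟩ : ∃ c, n28 * n86 = c := ⟨_, rfl⟩
  obtain ⟨n139, t492⟩ : ∃ a, a * n88 = n11 := ⟨_, Lp.div_mul' _ _⟩
  obtain ⟨n87, t301⟩ : ∃ c, n86 * n11 = c := ⟨_, rfl⟩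
  obtain ⟨n140, t495⟩ : ∃ c, n139 * n87 = c := ⟨_, rfl⟩
  obtain ⟨n70, t241⟩ : ∃ a, a * n27 = n69 := ⟨_, Lp.div_mul' _ _⟩
  obtain ⟨n71, t244⟩ : ∃ c, n70 * p = c := ⟨_, rfl⟩
  have t246 : n71 * (1 : Q) = n71 := Lp.mul_one' _
  have t245 : (1 : Q) * n71 = n71 := Lp.one_mul' _
  have t90 : (1 : Q) * n27 = n27 := Lp.one_mul' _
  have t7 : (1 : Q) * g = g := Lp.one_mul' _
  have t8 : g * (1 : Q) = g := Lp.mul_one' _
  have t13 : x * g = p := hp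
  have t15 : p * (1 : Q) = p := Lp.mul_one' _
  have t16 : g * x = p := hc 
  have t14 : (1 : Q) * p = p := Lp.one_mul' _
  have t92 : x * p = n27 := ufr hU (rt t36 rfl (m0.symm) rfl) t34 t7 t8 t13 t15 (rt t16 rfl (m1.symm) rfl) t14 t89
  have t238 : (1 : Q) * n69 = n69 := Lp.one_mul' _
  have m22 : p = n69 := mc t16 t240 rfl (m1.symm)
  have t247 : (1 : Q) * g = n71 := ufr hU t90 t92 t92 t90 (rt t238 rfl (m22.symm) rfl) t241 (rt t238 rfl (m22.symm) rfl) (rt t13 rfl rfl (m22)) t244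
  have m23 : n71 = g := mb t245 t247 rfl rfl
  have t210 : n61 * (1 : Q) = n61 := Lp.mul_one' _
  obtain ⟨n25, t82⟩ : ∃ a, a * x = g := ⟨_, Lp.div_mul' _ _⟩
  obtain ⟨n82, t284⟩ : ∃ a, a * n25 = p := ⟨_, Lp.div_mul' _ _⟩
  obtain ⟨n83, t287⟩ : ∃ c, n82 * g = c := ⟨_, rfl⟩
  obtain ⟨n77, t266⟩ : ∃ c, n38 * x = c := ⟨_, rfl⟩
  obtain ⟨n78, t269⟩ : ∃ b, X * b = n77 := ⟨_, Lp.mul_ldiv _ _⟩
  obtain ⟨n90, t313⟩ : ∃ c, n83 * n78 = c := ⟨_, rfl⟩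
  have t271 : n78 * (1 : Q) = n78 := Lp.mul_one' _
  have t6 : X * x = (1 : Q) := inv2 hU t3
  have t131 : n38 * (1 : Q) = n38 := Lp.mul_one' _
  have t272 : (1 : Q) * n78 = n69 := ufr hU (rt t39 rfl (m0.symm) rfl) t6 t129 t131 t247 t246 t266 t269 (rt t240 (m23.symm) (m1) rfl)
  have m27 : n69 = n78 := mb t238 t272 rfl rfl
  have t289 : n83 * (1 : Q) = n83 := Lp.mul_one' _
  obtain ⟨n26, t85⟩ : ∃ b, x * b = g := ⟨_, Lp.mul_ldiv _ _⟩
  have t83 : (1 : Q) * n25 = n25 := Lp.one_mul' _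
  have t84 : n25 * (1 : Q) = n25 := Lp.mul_one' _
  have t88 : (1 : Q) * n26 = n25 := ufr hU (rt t34 rfl (m1) rfl) t36 t13 t16 t7 t82 (rt t8 rfl (m0) rfl) t85 (rt t84 rfl (m0) rfl)
  have m8 : n25 = n26 := mb t83 t88 rfl rfl
  have t290 : x * n78 = n83 := ufr hU (rt t85 rfl (m8.symm) rfl) (rt t247 rfl rfl (m23)) t247 (rt t85 rfl (m8.symm) (m23.symm)) t13 t284 t13 (rt t272 rfl rfl (m22.symm)) t287
  have m29 : n27 = n83 := mc t92 t290 rfl (m22.trans (m27))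
  have t288 : (1 : Q) * n83 = n83 := Lp.one_mul' _
  have t316 : p * n83 = n90 := ufr hU (rt t271 ((m27.symm).trans (m22.symm)) rfl rfl) (rt t272 rfl rfl (m27)) (rt t34 rfl (m1) rfl) (rt t36 rfl (m0.symm) rfl) (rt t89 rfl (m1) rfl) (rt t289 rfl rfl (m29.symm)) t290 t288 t313
  have m24 : n59 = n70 := ma t201 t244 rfl (m23.symm)
  obtain ⟨n65, t223⟩ : ∃ b, n27 * b = p := ⟨_, Lp.mul_ldiv _ _⟩
  have t91 : n27 * (1 : Q) = n27 := Lp.mul_one' _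
  have t226 : p * n65 = g := ufr hU (rt t89 rfl (m1) rfl) t91 t91 (rt t89 rfl (m1) rfl) t15 t16 t15 t223 t8
  have m20 : n61 = n65 := mb t208 t226 rfl rfl
  have t209 : (1 : Q) * n61 = n61 := Lp.one_mul' _
  have t365 : n59 * (1 : Q) = n61 := ufr hU t201 t208 (rt t316 rfl (m29.symm) rfl) (rt t313 rfl ((m27.symm).trans (m22.symm)) rfl) (rt t241 (m24.symm) rfl rfl) (rt t272 rfl ((m27.symm).trans (m22.symm)) rfl) (rt t223 (m29) (m20.symm) rfl) (rt t271 ((m27.symm).trans (m22.symm)) rfl ((m27.symm).trans (m22.symm))) t209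
  have m42 : n61 = n59 := ma t210 t365 rfl rfl
  have t556 : n156 * (1 : Q) = n156 := Lp.mul_one' _
  obtain ⟨n97, t339⟩ : ∃ b, g * b = n87 := ⟨_, Lp.mul_ldiv _ _⟩
  obtain ⟨n100, t350⟩ : ∃ c, n97 * g = c := ⟨_, rfl⟩
  obtain ⟨n101, t353⟩ : ∃ b, n28 * b = n100 := ⟨_, Lp.mul_ldiv _ _⟩
  have t355 : n101 * (1 : Q) = n101 := Lp.mul_one' _
  obtain ⟨n30, t100⟩ : ∃ a, a * p = n11 := ⟨_, Lp.div_mul' _ _⟩
  have t102 : n30 * (1 : Q) = n30 := Lp.mul_one' _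
  have t101 : (1 : Q) * n30 = n30 := Lp.one_mul' _
  have t106 : (1 : Q) * n31 = n30 := ufr hU t14 t15 (rt t89 rfl (m1) rfl) t92 (rt t34 rfl (m1) rfl) t100 (rt t36 rfl (m0.symm) rfl) t103 t102
  have m11 : n30 = n31 := mb t101 t106 rfl rfl
  have t95 : n28 * (1 : Q) = n28 := Lp.mul_one' _
  have t107 : x * n31 = n28 := ufr hU t13 t15 t15 t13 (rt t36 rfl (m0.symm) rfl) t93 (rt t36 rfl (m0.symm) rfl) t103 t95
  have t128 : n31 * n11 = n28 := ufr hU (rt t102 (m11) rfl rfl) t106 t14 t15 (rt t100 (m11) rfl rfl) (rt t36 rfl (m0.symm) rfl) t103 t34 t107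
  have t303 : n87 * (1 : Q) = n87 := Lp.mul_one' _
  have t130 : (1 : Q) * n38 = n38 := Lp.one_mul' _
  have t304 : n28 * n12 = n87 := ufr hU t93 t34 t130 t129 t295 t298 (rt t6 rfl (m1.symm) rfl) t39 t301
  have m30 : n87 = n28 := ma t303 t304 (m0) rfl
  have m31 : n31 = n86 := ma t128 t301 rfl (m30.symm)
  have t341 : n97 * (1 : Q) = n97 := Lp.mul_one' _
  have t306 : (1 : Q) * n88 = n88 := Lp.one_mul' _
  obtain ⟨n29, t96⟩ : ∃ b, g * b = n11 := ⟨_, Lp.mul_ldiv _ _⟩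
  have t94 : (1 : Q) * n28 = n28 := Lp.one_mul' _
  have t99 : (1 : Q) * n29 = n28 := ufr hU t7 t8 t16 t13 (rt t34 rfl (m1) rfl) t93 (rt t36 rfl (m0.symm) rfl) t96 t95
  have m10 : n28 = n29 := mb t94 t99 rfl rfl
  have t302 : (1 : Q) * n87 = n87 := Lp.one_mul' _
  have t300 : n86 * (1 : Q) = n86 := Lp.mul_one' _
  have t299 : (1 : Q) * n86 = n86 := Lp.one_mul' _
  have t308 : n31 * n87 = n88 := ufr hU (rt t300 (m31.symm) rfl rfl) t299 (rt t34 rfl (m1) rfl) (rt t36 rfl (m0.symm) rfl) (rt t301 (m31.symm) (m1) rfl) (rt t304 rfl (m0.symm) rfl) (rt t107 rfl (m31) rfl) (rt t302 rfl rfl (m30)) t305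
  have t342 : (1 : Q) * n97 = n88 := ufr hU (rt t34 rfl (m1) rfl) t96 (rt t96 rfl (m10.symm) rfl) (rt t34 rfl (m1) rfl) (rt t302 rfl (m30) rfl) (rt t301 rfl (m1) rfl) (rt t302 rfl (m30.trans (m10)) rfl) t339 (rt t308 (m31) (m30.trans (m10)) rfl)
  have m36 : n88 = n97 := mb t306 t342 rfl rfl
  have t356 : x * n101 = n11 := ufr hU (rt t36 rfl (m0.symm) rfl) t93 (rt t305 rfl (m31.symm) rfl) (rt t341 rfl rfl (m36.symm)) t107 (rt t304 rfl (m0.symm) (m30)) t350 t353 t93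
  have m38 : n12 = n101 := mb t36 t356 rfl rfl
  have t498 : (1 : Q) * p = n140 := ufr hU (rt t342 rfl (m36.symm) rfl) t308 (rt t301 (m31.symm) (m1) rfl) (rt t339 rfl (m36.symm) rfl) (rt t34 rfl (m1) rfl) t492 (rt t96 rfl ((m10.symm).trans (m30.symm)) rfl) (rt t100 (m11) rfl rfl) t495
  have t563 : g * n158 = n140 := ufr hU (rt t246 (m23) rfl rfl) (rt t201 (m42.symm) rfl (m23.symm)) t554 t556 t9 (rt t355 rfl rfl ((m38.symm).trans (m0.symm))) t557 t560 (rt t498 (m0.trans (m38)) rfl rfl)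
  have t496 : (1 : Q) * n140 = n140 := Lp.one_mul' _
  have m49 : n140 = p := mb t496 t498 rfl rfl
  have m53 : n11 = n158 := mb t240 t563 rfl ((m22.symm).trans (m49.symm))
  have t236 : n68 * (1 : Q) = n68 := Lp.mul_one' _
  have t430 : p * n29 = n121 := ufr hU (rt t271 ((m27.symm).trans (m22.symm)) rfl rfl) (rt t240 rfl rfl (m27)) t9 (rt t355 rfl rfl ((m38.symm).trans (m0.symm))) (rt t237 (m22.symm) rfl rfl) t236 (rt t34 (m0.trans (m38)) rfl rfl) t96 t427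
  obtain ⟨n154, t546⟩ : ∃ c, X * n31 = c := ⟨_, rfl⟩
  obtain ⟨n166, t592⟩ : ∃ c, n154 * x = c := ⟨_, rfl⟩
  obtain ⟨n167, t595⟩ : ∃ b, X * b = n166 := ⟨_, Lp.mul_ldiv _ _⟩
  have t561 : (1 : Q) * n158 = n158 := Lp.one_mul' _
  obtain ⟨n181, t644⟩ : ∃ c, n18 * n31 = c := ⟨_, rfl⟩
  obtain ⟨n182, t647⟩ : ∃ b, x * b = n181 := ⟨_, Lp.mul_ldiv _ _⟩
  have t548 : n154 * (1 : Q) = n154 := Lp.mul_one' _
  obtain ⟨n91, t317⟩ : ∃ b, n31 * b = (1 : Q) := ⟨_, Lp.mul_ldiv _ _⟩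
  obtain ⟨n93, t323⟩ : ∃ c, n92 * n91 = c := ⟨_, rfl⟩
  have t324 : (1 : Q) * n93 = n93 := Lp.one_mul' _
  have t325 : n93 * (1 : Q) = n93 := Lp.mul_one' _
  obtain ⟨n94, t326⟩ : ∃ b, n31 * b = n93 := ⟨_, Lp.mul_ldiv _ _⟩
  have t322 : n92 * (1 : Q) = n92 := Lp.mul_one' _
  have t329 : (1 : Q) * n94 = (1 : Q) := ufr hU (rt t39 rfl (m0.symm) rfl) t317 t320 t322 (rt t299 rfl (m31.symm) rfl) t300 t323 t326 (rt t317 (m31) rfl rfl)
  have m32 : n12 = n94 := mb t39 t329 rfl rfl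
  have m33 : n93 = n31 := ma t325 t326 (m0.trans (m32)) rfl
  have t598 : (1 : Q) * n167 = n87 := ufr hU (rt t355 ((m38.symm).trans (m0.symm)) rfl rfl) (rt t6 rfl rfl (m0.trans (m38))) t546 t548 (rt t324 rfl (m33) rfl) (rt t326 rfl ((m32.symm).trans (m0.symm)) rfl) t592 t595 (rt t301 (m31.symm) (m1) rfl)
  have t351 : (1 : Q) * n100 = n100 := Lp.one_mul' _
  have t352 : n100 * (1 : Q) = n100 := Lp.mul_one' _
  have m39 : n100 = n28 := ma t352 t353 (m0.trans (m38)) rfl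
  have m57 : n100 = n167 := mb t351 t598 rfl (m39.trans (m30.symm))
  obtain ⟨n131, t463⟩ : ∃ c, n18 * n29 = c := ⟨_, rfl⟩
  have t59 : n18 * (1 : Q) = n18 := Lp.mul_one' _
  have t466 : x * n97 = n131 := ufr hU (rt t356 rfl ((m38.symm).trans (m0.symm)) rfl) t96 t9 (rt t355 rfl rfl ((m38.symm).trans (m0.symm))) t57 t59 (rt t351 (m0.trans (m38)) (m39.trans (m10)) rfl) (rt t339 rfl rfl (m30.trans (m39.symm))) t463
  have t650 : (1 : Q) * n182 = n92 := ufr hU (rt t598 rfl ((m57.symm).trans (m39)) rfl) (rt t107 rfl rfl (m30.symm)) (rt t466 rfl (m36.symm) rfl) (rt t463 rfl (m10.symm) rfl) (rt t342 rfl (m36.symm) rfl) (rt t308 rfl (m30) rfl) t644 t647 t320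
  obtain ⟨n95, t331⟩ : ∃ b, n91 * b = n93 := ⟨_, Lp.mul_ldiv _ _⟩
  have t330 : n91 * n31 = (1 : Q) := inv2 hU t317
  have t334 : (1 : Q) * n95 = n92 := ufr hU (rt t329 rfl ((m32.symm).trans (m0.symm)) rfl) t330 t330 (rt t329 rfl ((m32.symm).trans (m0.symm)) rfl) (rt t324 rfl (m33) rfl) (rt t326 rfl ((m32.symm).trans (m0.symm)) rfl) (rt t324 rfl (m33) rfl) t331 t320
  have m61 : n95 = n182 := mb t334 t650 rfl rfl
  have t321 : (1 : Q) * n92 = n92 := Lp.one_mul' _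
  have m34 : n92 = n95 := mb t321 t334 rfl rfl
  have t709 : p * n167 = n199 := ufr hU t103 (rt t561 rfl rfl (m53.symm)) (rt t650 rfl ((m61.symm).trans (m34.symm)) rfl) t320 t700 t703 (rt t301 (m31.symm) (m53) rfl) t598 t706
  have m65 : n121 = n199 := mc t430 t709 rfl ((m10.symm).trans ((m39.symm).trans (m57)))
  have m66 : n198 = n68 := ma t706 t427 (m53.symm) (m65.symm)
  have t825 : (1 : Q) * n231 = n232 := ufr hU (rt t704 rfl (m66) rfl) (rt t234 rfl rfl (m66.symm)) t234 (rt t704 rfl (m66) (m66)) t58 t816 t58 t819 t822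
  have m81 : n232 = n231 := mb t823 t825 rfl rfl
  obtain ⟨n290, t1026⟩ : ∃ a, a * X = n18 := ⟨_, Lp.div_mul' _ _⟩
  obtain ⟨n291, t1030⟩ : ∃ c, n290 * G = c := ⟨_, rfl⟩
  have t1033 : x * n231 = n291 := ufr hU t3 t9 t9 t3 t57 t1026 t57 t819 t1030
  obtain ⟨n399, t1409⟩ : ∃ a, a * G = n310 := ⟨_, Lp.div_mul' _ _⟩
  obtain ⟨n420, t1480⟩ : ∃ c, n18 * n62 = c := ⟨_, rfl⟩
  obtain ⟨n400, t1412⟩ : ∃ b, n18 * b = n399 := ⟨_, Lp.mul_ldiv _ _⟩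
  obtain ⟨n21, t67⟩ : ∃ b, X * b = n11 := ⟨_, Lp.mul_ldiv _ _⟩
  obtain ⟨n168, t599⟩ : ∃ c, n21 * g = c := ⟨_, rfl⟩
  obtain ⟨n169, t602⟩ : ∃ b, x * b = n168 := ⟨_, Lp.mul_ldiv _ _⟩
  obtain ⟨n221, t784⟩ : ∃ a, a * g = n169 := ⟨_, Lp.div_mul' _ _⟩
  obtain ⟨n287, t1015⟩ : ∃ c, n62 * g = c := ⟨_, rfl⟩
  obtain ⟨n245, t872⟩ : ∃ c, n36 * g = c := ⟨_, rfl⟩
  obtain ⟨n246, t875⟩ : ∃ b, G * b = n245 := ⟨_, Lp.mul_ldiv _ _⟩
  have t12 : G * g = (1 : Q) := inv2 hU t9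
  have t126 : n37 * (1 : Q) = n37 := Lp.mul_one' _
  have t125 : (1 : Q) * n37 = n37 := Lp.one_mul' _
  obtain ⟨n16, t50⟩ : ∃ b, x * b = n15 := ⟨_, Lp.mul_ldiv _ _⟩
  have t56 : (1 : Q) * n16 = n17 := ufr hU (rt t39 rfl (m0.symm) rfl) t3 t13 t15 t7 t8 t47 t50 t53
  have t54 : (1 : Q) * n17 = n17 := Lp.one_mul' _
  have m3 : n17 = n16 := mb t54 t56 rfl rfl
  have t119 : (1 : Q) * n35 = n35 := Lp.one_mul' _
  have t127 : (1 : Q) * G = n37 := ufr hU (rt t56 rfl (m3.symm) rfl) t53 t118 (rt t50 rfl (m3.symm) rfl) t119 t121 t3 t9 t124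
  have m13 : n37 = G := mb t125 t127 rfl rfl
  have t562 : n158 * (1 : Q) = n158 := Lp.mul_one' _
  have t31 : (1 : Q) * n10 = n10 := Lp.one_mul' _
  have t70 : (1 : Q) * n21 = n10 := ufr hU (rt t39 rfl (m0.symm) rfl) t6 t6 (rt t39 rfl (m0.symm) rfl) (rt t34 rfl (m1) rfl) (rt t36 rfl (m0.symm) rfl) (rt t34 rfl (m1) rfl) t67 t30
  have m5 : n10 = n21 := mb t31 t70 rfl rfl
  have t878 : x * n246 = n168 := ufr hU t3 t12 (rt t126 (m13) rfl rfl) t124 (rt t562 ((m53.symm).trans (m1)) rfl rfl) (rt t33 rfl rfl (m53)) t872 t875 (rt t599 (m5.symm) rfl rfl)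
  have m95 : n169 = n246 := mb t602 t878 rfl rfl
  have t1016 : (1 : Q) * n287 = n287 := Lp.one_mul' _
  obtain ⟨n222, t787⟩ : ∃ c, n221 * n61 = c := ⟨_, rfl⟩
  obtain ⟨n170, t605⟩ : ∃ c, n83 * g = c := ⟨_, rfl⟩
  have t497 : n140 * (1 : Q) = n140 := Lp.mul_one' _
  have t69 : n21 * (1 : Q) = n21 := Lp.mul_one' _
  have t608 : p * n169 = n170 := ufr hU (rt t497 (m49) rfl rfl) (rt t13 rfl rfl (m49.symm)) t30 (rt t69 rfl rfl (m5.symm)) (rt t89 rfl (m1) rfl) (rt t289 rfl rfl (m29.symm)) t599 t602 t605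
  have t603 : (1 : Q) * n169 = n169 := Lp.one_mul' _
  have t790 : (1 : Q) * (1 : Q) = n222 := ufr hU t247 (rt t208 rfl rfl (m23.symm)) t608 t605 t603 t784 (rt t223 (m29) (m20.symm) rfl) (rt t497 (m49) rfl (m49)) t787
  have t789 : n222 * (1 : Q) = n222 := Lp.mul_one' _
  have m78 : n222 = (1 : Q) := ma t789 t790 rfl rfl
  obtain ⟨n48, t162⟩ : ∃ a, a * X = n35 := ⟨_, Lp.div_mul' _ _⟩
  obtain ⟨n49, t165⟩ : ∃ c, n48 * G = c := ⟨_, rfl⟩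
  have t24 : G * X = s := hs
  obtain ⟨n19, t60⟩ : ∃ c, n18 * X = c := ⟨_, rfl⟩
  obtain ⟨n20, t63⟩ : ∃ b, x * b = n19 := ⟨_, Lp.mul_ldiv _ _⟩
  have t65 : n20 * (1 : Q) = n20 := Lp.mul_one' _
  have t25 : (1 : Q) * s = s := Lp.one_mul' _
  have t10 : (1 : Q) * G = G := Lp.one_mul' _
  have t11 : G * (1 : Q) = G := Lp.mul_one' _
  have t66 : (1 : Q) * n20 = s := ufr hU (rt t39 rfl (m0.symm) rfl) t3 t57 t59 t10 t11 t60 t63 t24
  have m4 : s = n20 := mb t25 t66 rfl rfl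
  have t168 : n36 * n12 = n49 := ufr hU t124 t127 (rt t56 rfl (m3.symm) rfl) t53 t121 t162 t9 t39 t165
  have t215 : G * n62 = n49 := ufr hU t24 (rt t65 (m4.symm) rfl (m4.symm)) (rt t65 (m4.symm) rfl rfl) (rt t24 rfl rfl (m4)) (rt t126 (m13) rfl rfl) t124 (rt t126 (m13) rfl rfl) t212 (rt t168 rfl (m0.symm) rfl)
  have t213 : (1 : Q) * n62 = n62 := Lp.one_mul' _
  have t214 : n62 * (1 : Q) = n62 := Lp.mul_one' _
  have t1018 : (1 : Q) * n246 = n287 := ufr hU t790 (rt t12 rfl rfl (m78.symm)) t215 (rt t168 rfl (m0.symm) rfl) t213 t214 t872 t875 t1015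
  have m106 : n287 = n246 := mb t1016 t1018 rfl rfl
  have m107 : n221 = n62 := ma t784 t1015 rfl (m95.trans (m106.symm))
  obtain ⟨n149, t530⟩ : ∃ c, x * n35 = c := ⟨_, rfl⟩
  obtain ⟨n150, t533⟩ : ∃ a, a * X = n149 := ⟨_, Lp.div_mul' _ _⟩
  obtain ⟨n151, t536⟩ : ∃ c, n150 * G = c := ⟨_, rfl⟩
  have t539 : x * n18 = n151 := ufr hU t3 t9 t118 t47 t530 t533 (rt t237 (m22.symm) rfl rfl) t234 t536
  have t1411 : n399 * (1 : Q) = n399 := Lp.mul_one' _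
  have t535 : n150 * (1 : Q) = n150 := Lp.mul_one' _
  have t1415 : x * n400 = n150 := ufr hU t57 t59 t1096 t1409 t539 t536 t1411 t1412 t535
  obtain ⟨n433, t1527⟩ : ∃ c, n62 * X = c := ⟨_, rfl⟩
  obtain ⟨n434, t1530⟩ : ∃ c, x * n433 = c := ⟨_, rfl⟩
  obtain ⟨n435, t1533⟩ : ∃ a, a * X = n434 := ⟨_, Lp.div_mul' _ _⟩
  have t1528 : (1 : Q) * n433 = n433 := Lp.one_mul' _
  have t786 : n221 * (1 : Q) = n221 := Lp.mul_one' _
  have t785 : (1 : Q) * n221 = n221 := Lp.one_mul' _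
  have t1535 : n435 * (1 : Q) = n435 := Lp.mul_one' _
  have t1536 : x * n221 = n435 := ufr hU t3 (rt t790 rfl rfl (m78)) t1528 t1527 t1530 t1533 (rt t786 (m107) rfl rfl) t785 t1535
  obtain ⟨n228, t809⟩ : ∃ c, n62 * s = c := ⟨_, rfl⟩
  obtain ⟨n229, t812⟩ : ∃ c, n228 * n62 = c := ⟨_, rfl⟩
  obtain ⟨n63, t216⟩ : ∃ c, G * n38 = c := ⟨_, rfl⟩
  obtain ⟨n64, t219⟩ : ∃ a, a * g = n63 := ⟨_, Lp.div_mul' _ _⟩
  have t220 : (1 : Q) * n64 = n64 := Lp.one_mul' _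
  have t5 : X * (1 : Q) = X := Lp.mul_one' _
  have t4 : (1 : Q) * X = X := Lp.one_mul' _
  have t221 : n64 * (1 : Q) = n64 := Lp.mul_one' _
  have t222 : G * X = n64 := ufr hU t12 t39 t130 t129 t216 t219 (rt t5 rfl (m0) rfl) t4 (rt t221 rfl (m0) rfl)
  have m19 : s = n64 := mc t24 t222 rfl rfl
  have t811 : n228 * (1 : Q) = n228 := Lp.mul_one' _
  have t815 : n62 * G = n229 := ufr hU t214 t213 (rt t220 rfl (m19.symm) rfl) t221 t809 t811 (rt t212 (m19) rfl rfl) t127 t812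
  obtain ⟨n73, t252⟩ : ∃ c, n64 * X = c := ⟨_, rfl⟩
  obtain ⟨n320, t1134⟩ : ∃ c, n221 * n73 = c := ⟨_, rfl⟩
  obtain ⟨n326, t1155⟩ : ∃ c, n320 * n221 = c := ⟨_, rfl⟩
  obtain ⟨n89, t309⟩ : ∃ c, n73 * n64 = c := ⟨_, rfl⟩
  obtain ⟨n321, t1137⟩ : ∃ c, n64 * n73 = c := ⟨_, rfl⟩
  have t254 : n73 * (1 : Q) = n73 := Lp.mul_one' _
  have t253 : (1 : Q) * n73 = n73 := Lp.one_mul' _
  obtain ⟨n74, t255⟩ : ∃ b, n73 * b = n64 := ⟨_, Lp.mul_ldiv _ _⟩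
  have t258 : s * n74 = n37 := ufr hU (rt t252 (m19.symm) rfl rfl) t254 t254 t252 (rt t221 (m19.symm) rfl rfl) t222 t221 t255 (rt t126 (m13) rfl rfl)
  have m25 : n62 = n74 := mb t212 t258 rfl rfl
  have t1135 : (1 : Q) * n320 = n320 := Lp.one_mul' _
  have t1140 : n73 * n320 = n321 := ufr hU t254 t253 (rt t785 rfl (m107) rfl) t786 (rt t255 rfl (m25.symm) rfl) t221 t1134 t1135 t1137
  have t27 : X * s = r := hr
  have t28 : (1 : Q) * r = r := Lp.one_mul' _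
  have t312 : s * r = n89 := ufr hU (rt t221 (m19.symm) rfl rfl) t220 t4 t5 (rt t252 (m19.symm) rfl rfl) t254 (rt t27 rfl (m19) rfl) t28 t309
  obtain ⟨n307, t1086⟩ : ∃ c, n42 * X = c := ⟨_, rfl⟩
  obtain ⟨n32, t108⟩ : ∃ a, a * s = X := ⟨_, Lp.div_mul' _ _⟩
  obtain ⟨n51, t172⟩ : ∃ b, n42 * b = X := ⟨_, Lp.mul_ldiv _ _⟩
  obtain ⟨n322, t1141⟩ : ∃ c, n51 * n42 = c := ⟨_, rfl⟩
  obtain ⟨n212, t751⟩ : ∃ c, n42 * n91 = c := ⟨_, rfl⟩
  have t753 : n212 * (1 : Q) = n212 := Lp.mul_one' _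
  obtain ⟨n174, t620⟩ : ∃ c, n95 * n11 = c := ⟨_, rfl⟩
  obtain ⟨n175, t623⟩ : ∃ b, n31 * b = n174 := ⟨_, Lp.mul_ldiv _ _⟩
  obtain ⟨n111, t391⟩ : ∃ b, n25 * b = n110 := ⟨_, Lp.mul_ldiv _ _⟩
  obtain ⟨n141, t499⟩ : ∃ c, n97 * n11 = c := ⟨_, rfl⟩
  obtain ⟨n60, t204⟩ : ∃ c, n59 * g = c := ⟨_, rfl⟩
  have t206 : n60 * (1 : Q) = n60 := Lp.mul_one' _
  have t205 : (1 : Q) * n60 = n60 := Lp.one_mul' _
  have t207 : (1 : Q) * n26 = n60 := ufr hU t14 t13 t13 t14 t7 t201 t7 t85 t204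
  have m18 : n60 = n26 := mb t205 t207 rfl rfl
  have t394 : (1 : Q) * n111 = n44 := ufr hU t247 (rt t82 rfl rfl (m23.symm)) (rt t206 (m18.trans (m8.symm)) rfl rfl) t204 (rt t355 ((m38.symm).trans (m0.symm)) rfl rfl) (rt t12 rfl rfl (m0.trans (m38))) t388 t391 t149
  have t502 : n28 * n111 = n141 := ufr hU t93 t34 (rt t355 ((m38.symm).trans (m0.symm)) rfl rfl) (rt t12 rfl rfl (m0.trans (m38))) (rt t353 rfl ((m38.symm).trans (m0.symm)) rfl) t350 (rt t149 rfl (m1.symm) rfl) t394 t499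
  have t597 : n167 * (1 : Q) = n167 := Lp.mul_one' _
  have t333 : n95 * (1 : Q) = n95 := Lp.mul_one' _
  have t626 : n28 * n175 = n141 := ufr hU (rt t597 ((m57.symm).trans (m39)) rfl rfl) (rt t301 (m31.symm) rfl (m30.trans ((m39.symm).trans (m57)))) t320 (rt t333 rfl rfl (m34.symm)) (rt t305 rfl (m31.symm) rfl) (rt t341 rfl rfl (m36.symm)) t620 t623 t499
  have m59 : n111 = n175 := mb t502 t626 rfl rfl
  obtain ⟨n76, t262⟩ : ∃ b, X * b = n75 := ⟨_, Lp.mul_ldiv _ _⟩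
  have t144 : n42 * (1 : Q) = n42 := Lp.mul_one' _
  have t265 : (1 : Q) * n76 = n44 := ufr hU (rt t39 rfl (m0.symm) rfl) t6 t142 t144 t127 t126 t259 t262 (rt t149 (m13.symm) rfl rfl)
  have m44 : n76 = n111 := mb t265 t394 rfl rfl
  have t150 : (1 : Q) * n44 = n44 := Lp.one_mul' _
  have m26 : n44 = n76 := mb t150 t265 rfl rfl
  have t754 : X * n94 = n212 := ufr hU t6 t317 (rt t623 rfl ((m59.symm).trans ((m44.symm).trans (m26.symm))) rfl) (rt t620 rfl (m1) rfl) (rt t262 rfl (m26.symm) rfl) t259 (rt t323 (m34) rfl rfl) t326 t751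
  have m71 : n212 = X := ma t753 t754 (m0.trans (m32)) rfl
  have m72 : n51 = n91 := mb t172 t751 rfl (m71.symm)
  have t752 : (1 : Q) * n212 = n212 := Lp.one_mul' _
  have t755 : n51 * n20 = n212 := ufr hU (rt t330 (m72.symm) rfl rfl) t3 (rt t647 rfl ((m61.symm).trans (m34.symm)) rfl) t644 (rt t331 (m72.symm) (m34.symm) rfl) (rt t324 rfl (m33) rfl) t60 t63 (rt t752 rfl (m71) rfl)
  have m73 : n32 = n51 := ma t108 t755 (m4) (m71.symm)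
  obtain ⟨n323, t1144⟩ : ∃ c, n322 * n32 = c := ⟨_, rfl⟩
  obtain ⟨n81, t280⟩ : ∃ b, r * b = X := ⟨_, Lp.mul_ldiv _ _⟩
  obtain ⟨n220, t780⟩ : ∃ c, n81 * n212 = c := ⟨_, rfl⟩
  obtain ⟨n209, t741⟩ : ∃ c, n91 * X = c := ⟨_, rfl⟩
  have t281 : (1 : Q) * n81 = n81 := Lp.one_mul' _
  have t282 : n81 * (1 : Q) = n81 := Lp.mul_one' _
  have t29 : r * (1 : Q) = r := Lp.mul_one' _
  have t110 : n32 * (1 : Q) = n32 := Lp.mul_one' _
  have t283 : X * n81 = n32 := ufr hU t27 t29 t29 t27 t5 t108 t5 t280 t110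
  have t781 : (1 : Q) * n220 = n220 := Lp.one_mul' _
  have t783 : X * n220 = n209 := ufr hU (rt t754 rfl ((m32.symm).trans (m0.symm)) rfl) t752 t281 t282 t283 t110 t780 t781 (rt t741 ((m72.symm).trans (m73.symm)) (m71.symm) rfl)
  obtain ⟨n252, t897⟩ : ∃ c, G * n220 = c := ⟨_, rfl⟩
  obtain ⟨n348, t1233⟩ : ∃ c, G * n51 = c := ⟨_, rfl⟩
  obtain ⟨n286, t1011⟩ : ∃ b, G * b = n285 := ⟨_, Lp.mul_ldiv _ _⟩
  obtain ⟨n314, t1109⟩ : ∃ c, n252 * n286 = c := ⟨_, rfl⟩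
  obtain ⟨n114, t402⟩ : ∃ a, a * g = X := ⟨_, Lp.div_mul' _ _⟩
  obtain ⟨n115, t405⟩ : ∃ b, n114 * b = n38 := ⟨_, Lp.mul_ldiv _ _⟩
  obtain ⟨n352, t1246⟩ : ∃ c, G * n115 = c := ⟨_, rfl⟩
  obtain ⟨n353, t1249⟩ : ∃ a, a * g = n352 := ⟨_, Lp.div_mul' _ _⟩
  obtain ⟨n354, t1252⟩ : ∃ c, n353 * x = c := ⟨_, rfl⟩
  have t1007 : n284 * (1 : Q) = n284 := Lp.mul_one' _
  have t1014 : (1 : Q) * n286 = n11 := ufr hU t790 (rt t12 rfl rfl (m78.symm)) t1005 t1007 (rt t598 rfl ((m57.symm).trans (m39)) rfl) (rt t597 rfl rfl ((m57.symm).trans (m39.trans (m30.symm)))) t1008 t1011 (rt t93 ((m39.symm).trans (m57)) rfl rfl)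
  have m104 : n158 = n286 := mb t561 t1014 rfl (m53.symm)
  obtain ⟨n66, t227⟩ : ∃ c, G * p = c := ⟨_, rfl⟩
  obtain ⟨n67, t230⟩ : ∃ a, a * g = n66 := ⟨_, Lp.div_mul' _ _⟩
  have t1010 : n285 * (1 : Q) = n285 := Lp.mul_one' _
  obtain ⟨n33, t111⟩ : ∃ b, G * b = X := ⟨_, Lp.mul_ldiv _ _⟩
  obtain ⟨n253, t900⟩ : ∃ a, a * n33 = n252 := ⟨_, Lp.div_mul' _ _⟩
  have t742 : (1 : Q) * n209 = n209 := Lp.one_mul' _
  obtain ⟨n34, t114⟩ : ∃ c, n32 * X = c := ⟨_, rfl⟩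
  have m75 : n209 = n34 := mc t741 t114 ((m72.symm).trans (m73.symm)) rfl
  have t115 : (1 : Q) * n34 = n34 := Lp.one_mul' _
  have t117 : (1 : Q) * n33 = n34 := ufr hU (rt t66 rfl (m4.symm) rfl) t24 t24 (rt t66 rfl (m4.symm) rfl) t4 t108 t4 t111 t114
  have m12 : n34 = n33 := mb t115 t117 rfl rfl
  have t902 : n253 * (1 : Q) = n253 := Lp.mul_one' _
  have t903 : G * x = n253 := ufr hU t111 (rt t754 rfl rfl (m71)) t783 (rt t742 rfl (m75.trans (m12)) rfl) t897 t900 (rt t790 rfl (m0.trans (m32)) rfl) (rt t6 rfl rfl (m78.symm)) (rt t902 rfl (m0.trans (m32)) rfl)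
  have m105 : n253 = n285 := mc t903 t1011 rfl ((m1.symm).trans (m53.trans (m104)))
  have m96 : n44 = n253 := mc t149 t903 rfl rfl
  have t899 : n252 * (1 : Q) = n252 := Lp.mul_one' _
  have t1112 : n44 * g = n314 := ufr hU (rt t1010 ((m105.symm).trans (m96.symm)) rfl rfl) t1011 t111 (rt t754 rfl ((m32.symm).trans (m0.symm)) (m71)) (rt t900 (m96.symm) rfl rfl) t899 (rt t6 rfl ((m1.symm).trans (m53.trans (m104))) rfl) t12 t1109
  have t232 : n67 * (1 : Q) = n67 := Lp.mul_one' _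
  have t233 : G * n11 = n67 := ufr hU t12 t39 t14 t13 t227 t230 t36 t34 (rt t232 rfl (m0) rfl)
  have m21 : n44 = n67 := mc t149 t233 rfl (m1.symm)
  have m115 : n66 = n314 := mc t230 t1112 (m21.symm) rfl
  obtain ⟨n116, t408⟩ : ∃ c, n38 * g = c := ⟨_, rfl⟩
  have t411 : X * n115 = n116 := ufr hU t5 t402 t402 t5 t129 t131 t129 t405 t408
  obtain ⟨n135, t478⟩ : ∃ c, X * n27 = c := ⟨_, rfl⟩
  obtain ⟨n136, t481⟩ : ∃ a, a * x = n135 := ⟨_, Lp.div_mul' _ _⟩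
  have t483 : n136 * (1 : Q) = n136 := Lp.mul_one' _
  have t484 : X * n78 = n136 := ufr hU t6 (rt t355 ((m38.symm).trans (m0.symm)) rfl ((m38.symm).trans (m0.symm))) (rt t288 rfl (m29.symm) rfl) (rt t89 rfl (m1) (m29)) t478 t481 (rt t271 ((m27.symm).trans (m22.symm)) rfl rfl) (rt t272 rfl rfl (m27)) t483
  have m47 : n77 = n136 := mc t269 t484 rfl rfl
  have t1255 : G * n78 = n354 := ufr hU t12 t6 t411 t408 t1246 t1249 t266 (rt t484 rfl rfl (m47.symm)) t1252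
  have m129 : n66 = n354 := mc t227 t1255 rfl (m22.trans (m27))
  have m130 : n252 = n353 := ma t1109 t1252 ((m104.symm).trans ((m53.symm).trans (m1))) ((m115.symm).trans (m129))
  obtain ⟨n349, t1236⟩ : ∃ c, n348 * g = c := ⟨_, rfl⟩
  obtain ⟨n350, t1239⟩ : ∃ b, G * b = n349 := ⟨_, Lp.mul_ldiv _ _⟩
  obtain ⟨n278, t985⟩ : ∃ c, X * n25 = c := ⟨_, rfl⟩
  obtain ⟨n279, t988⟩ : ∃ c, n278 * x = c := ⟨_, rfl⟩
  obtain ⟨n407, t1437⟩ : ∃ c, n279 * n279 = c := ⟨_, rfl⟩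
  obtain ⟨n408, t1440⟩ : ∃ b, X * b = n407 := ⟨_, Lp.mul_ldiv _ _⟩
  obtain ⟨n409, t1443⟩ : ∃ a, a * n38 = n408 := ⟨_, Lp.div_mul' _ _⟩
  obtain ⟨n280, t991⟩ : ∃ b, X * b = n279 := ⟨_, Lp.mul_ldiv _ _⟩
  obtain ⟨n410, t1446⟩ : ∃ c, n409 * n280 = c := ⟨_, rfl⟩
  have t1447 : (1 : Q) * n410 = n410 := Lp.one_mul' _
  have t989 : (1 : Q) * n279 = n279 := Lp.one_mul' _
  have t987 : n278 * (1 : Q) = n278 := Lp.mul_one' _
  have t994 : (1 : Q) * n280 = g := ufr hU t790 (rt t6 rfl rfl (m78.symm)) t985 t987 (rt t207 rfl (m8.symm) rfl) t206 t988 t991 (rt t82 (m8.trans (m18.symm)) rfl rfl)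
  have m101 : g = n280 := mb t247 t994 rfl (m23)
  have m102 : n38 = n279 := mc t129 t991 rfl (m101)
  have t1441 : (1 : Q) * n408 = n408 := Lp.one_mul' _
  have t1449 : (1 : Q) * n115 = n410 := ufr hU (rt t989 rfl (m102.symm) rfl) t991 t1440 (rt t1437 rfl (m102.symm) rfl) t1441 t1443 (rt t408 (m102) (m101) rfl) t411 t1446
  have m145 : n410 = n115 := mb t1447 t1449 rfl rfl
  obtain ⟨n351, t1242⟩ : ∃ c, n32 * g = c := ⟨_, rfl⟩
  obtain ⟨n368, t1301⟩ : ∃ c, n323 * g = c := ⟨_, rfl⟩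
  obtain ⟨n392, t1384⟩ : ∃ c, s * n36 = c := ⟨_, rfl⟩
  obtain ⟨n393, t1387⟩ : ∃ a, a * n62 = n392 := ⟨_, Lp.div_mul' _ _⟩
  obtain ⟨n423, t1492⟩ : ∃ b, G * b = n393 := ⟨_, Lp.mul_ldiv _ _⟩
  obtain ⟨n210, t744⟩ : ∃ c, n209 * n31 = c := ⟨_, rfl⟩
  obtain ⟨n211, t747⟩ : ∃ b, n91 * b = n210 := ⟨_, Lp.mul_ldiv _ _⟩
  have t743 : n209 * (1 : Q) = n209 := Lp.mul_one' _
  have t750 : (1 : Q) * n211 = n154 := ufr hU (rt t355 ((m38.symm).trans (m0.symm)) rfl rfl) (rt t330 rfl rfl (m0.trans (m38))) t741 t743 t4 t5 t744 t747 t546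
  obtain ⟨n247, t879⟩ : ∃ c, n154 * G = c := ⟨_, rfl⟩
  obtain ⟨n22, t71⟩ : ∃ b, g * b = G := ⟨_, Lp.mul_ldiv _ _⟩
  obtain ⟨n336, t1189⟩ : ∃ c, n20 * n22 = c := ⟨_, rfl⟩
  obtain ⟨n23, t74⟩ : ∃ c, G * G = c := ⟨_, rfl⟩
  have t77 : (1 : Q) * n22 = n23 := ufr hU (rt t39 rfl (m0.symm) rfl) t9 t9 (rt t39 rfl (m0.symm) rfl) t10 t11 t10 t71 t74
  have t143 : (1 : Q) * n42 = n42 := Lp.one_mul' _
  obtain ⟨n43, t145⟩ : ∃ c, n20 * G = c := ⟨_, rfl⟩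
  have t148 : G * n42 = n43 := ufr hU (rt t126 (m13) rfl rfl) t127 t4 t5 t24 (rt t65 rfl rfl (m4.symm)) t142 t143 t145
  have t882 : X * n22 = n247 := ufr hU t6 t9 (rt t96 rfl (m10.symm) rfl) (rt t561 rfl ((m53.symm).trans (m1)) (m53.symm)) (rt t595 rfl ((m57.symm).trans (m39)) rfl) t592 t127 (rt t71 rfl rfl (m13.symm)) t879
  have t880 : (1 : Q) * n247 = n247 := Lp.one_mul' _
  have t1192 : G * n247 = n336 := ufr hU t74 t77 t143 t142 t148 t145 t882 t880 t1189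
  obtain ⟨n394, t1390⟩ : ∃ c, n393 * G = c := ⟨_, rfl⟩
  obtain ⟨n239, t850⟩ : ∃ c, n31 * n27 = c := ⟨_, rfl⟩
  obtain ⟨n275, t975⟩ : ∃ c, n61 * n239 = c := ⟨_, rfl⟩
  obtain ⟨n276, t978⟩ : ∃ a, a * n27 = n275 := ⟨_, Lp.div_mul' _ _⟩
  obtain ⟨n288, t1019⟩ : ∃ c, n276 * n62 = c := ⟨_, rfl⟩
  obtain ⟨n289, t1022⟩ : ∃ b, n61 * b = n288 := ⟨_, Lp.mul_ldiv _ _⟩
  obtain ⟨n226, t802⟩ : ∃ a, a * n62 = n222 := ⟨_, Lp.div_mul' _ _⟩
  have t803 : (1 : Q) * n226 = n226 := Lp.one_mul' _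
  obtain ⟨n227, t805⟩ : ∃ b, n62 * b = n222 := ⟨_, Lp.mul_ldiv _ _⟩
  have t804 : n226 * (1 : Q) = n226 := Lp.mul_one' _
  have t808 : (1 : Q) * n227 = n226 := ufr hU t213 t214 t214 t213 t790 t802 t790 t805 t804
  have m80 : n226 = n227 := mb t803 t808 rfl rfl
  have m108 : n227 = n61 := mb t805 t787 (m107.symm) rfl
  have t980 : n276 * (1 : Q) = n276 := Lp.mul_one' _
  obtain ⟨n277, t981⟩ : ∃ c, n276 * p = c := ⟨_, rfl⟩
  have m54 : n110 = n157 := mc t388 t560 (m42.symm) ((m1.symm).trans (m53))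
  have t851 : (1 : Q) * n239 = n239 := Lp.one_mul' _
  have t984 : n61 * n158 = n277 := ufr hU (rt t241 ((m24.symm).trans (m42.symm)) rfl rfl) (rt t498 rfl rfl (m49.trans (m22))) t851 t850 t975 t978 (rt t100 (m11) rfl rfl) (rt t561 rfl rfl (m53.symm)) t981
  have m99 : n110 = n277 := mc t388 t984 (m42.symm) ((m1.symm).trans (m53))
  have m100 : n156 = n276 := ma t557 t981 rfl ((m54.symm).trans (m99))
  have t1025 : (1 : Q) * n289 = n49 := ufr hU t790 (rt t802 (m80.trans (m108)) rfl rfl) t554 (rt t980 rfl rfl (m100.symm)) t127 t126 t1019 t1022 (rt t215 (m13.symm) rfl rfl)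
  have t166 : (1 : Q) * n49 = n49 := Lp.one_mul' _
  have m109 : n49 = n289 := mb t166 t1025 rfl rfl
  have t167 : n49 * (1 : Q) = n49 := Lp.mul_one' _
  have m16 : n49 = n36 := ma t167 t168 (m0) rfl
  have t1393 : s * n22 = n394 := ufr hU t212 t127 (rt t1025 rfl ((m109.symm).trans (m16)) rfl) t215 t1384 t1387 t74 t77 t1390
  have m142 : n336 = n394 := mc t1189 t1393 (m4.symm) rfl
  have t1389 : n393 * (1 : Q) = n393 := Lp.mul_one' _
  have t749 : n211 * (1 : Q) = n211 := Lp.mul_one' _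
  obtain ⟨n152, t540⟩ : ∃ c, g * n31 = c := ⟨_, rfl⟩
  obtain ⟨n153, t543⟩ : ∃ b, p * b = n152 := ⟨_, Lp.mul_ldiv _ _⟩
  have t549 : (1 : Q) * n153 = n154 := ufr hU (rt t34 rfl (m1) rfl) t103 (rt t497 (m49) rfl rfl) (rt t240 rfl (m1) ((m22.symm).trans (m49.symm))) (rt t355 ((m38.symm).trans (m0.symm)) rfl rfl) (rt t6 rfl rfl (m0.trans (m38))) t540 t543 t546
  have m70 : n153 = n211 := mb t549 t750 rfl rfl
  have t547 : (1 : Q) * n154 = n154 := Lp.one_mul' _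
  have m51 : n154 = n153 := mb t547 t549 rfl rfl
  have t1495 : (1 : Q) * n423 = n211 := ufr hU t127 (rt t126 (m13) rfl rfl) t1192 (rt t1390 rfl rfl (m142.symm)) t880 t879 t1389 t1492 (rt t749 ((m70.symm).trans (m51.symm)) rfl rfl)
  have m150 : n211 = n423 := mb t750 t1495 rfl (m51.trans (m70))
  obtain ⟨n281, t995⟩ : ∃ c, G * n31 = c := ⟨_, rfl⟩
  obtain ⟨n292, t1034⟩ : ∃ c, n281 * n62 = c := ⟨_, rfl⟩
  obtain ⟨n187, t665⟩ : ∃ c, n156 * g = c := ⟨_, rfl⟩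
  have t296 : (1 : Q) * n85 = n85 := Lp.one_mul' _
  have t668 : n61 * n85 = n187 := ufr hU (rt t201 (m42.symm) rfl rfl) (rt t247 rfl rfl (m23)) (rt t561 rfl ((m53.symm).trans (m1)) rfl) (rt t100 rfl rfl (m53)) (rt t388 (m42.symm) rfl rfl) (rt t557 rfl rfl (m54.symm)) (rt t298 ((m31.symm).trans (m11.symm)) rfl rfl) t296 t665
  obtain ⟨n282, t998⟩ : ∃ c, n281 * g = c := ⟨_, rfl⟩
  obtain ⟨n283, t1001⟩ : ∃ b, G * b = n282 := ⟨_, Lp.mul_ldiv _ _⟩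
  have t997 : n281 * (1 : Q) = n281 := Lp.mul_one' _
  obtain ⟨n185, t658⟩ : ∃ c, n66 * g = c := ⟨_, rfl⟩
  obtain ⟨n186, t661⟩ : ∃ b, n185 * b = n66 := ⟨_, Lp.mul_ldiv _ _⟩
  have t662 : (1 : Q) * n186 = n186 := Lp.one_mul' _
  have t660 : n185 * (1 : Q) = n185 := Lp.mul_one' _
  have t229 : n66 * (1 : Q) = n66 := Lp.mul_one' _
  have t625 : n175 * (1 : Q) = n175 := Lp.mul_one' _
  have t664 : n66 * n186 = n175 := ufr hU t658 t660 t660 t658 t229 t230 t229 t661 (rt t625 ((m59.symm).trans ((m44.symm).trans ((m26.symm).trans (m21)))) rfl rfl)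
  obtain ⟨n243, t864⟩ : ∃ a, a * n31 = n175 := ⟨_, Lp.div_mul' _ _⟩
  obtain ⟨n120, t423⟩ : ∃ c, n28 * n78 = c := ⟨_, rfl⟩
  have t228 : (1 : Q) * n66 = n66 := Lp.one_mul' _
  have t426 : x * n66 = n120 := ufr hU t13 (rt t272 rfl rfl (m22.symm)) (rt t355 ((m38.symm).trans (m0.symm)) rfl rfl) (rt t12 rfl rfl (m0.trans (m38))) (rt t356 rfl ((m38.symm).trans (m0.symm)) rfl) t93 (rt t227 rfl (m22.trans (m27)) rfl) t228 t423
  obtain ⟨n195, t693⟩ : ∃ c, n182 * p = c := ⟨_, rfl⟩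
  obtain ⟨n196, t696⟩ : ∃ b, n31 * b = n195 := ⟨_, Lp.mul_ldiv _ _⟩
  have t649 : n182 * (1 : Q) = n182 := Lp.mul_one' _
  have t699 : x * n196 = n120 := ufr hU (rt t562 ((m53.symm).trans (m1)) rfl rfl) (rt t100 (m11) rfl (m53)) t320 (rt t649 rfl rfl ((m61.symm).trans (m34.symm))) t107 (rt t597 rfl rfl ((m57.symm).trans (m39))) t693 t696 (rt t423 ((m39.symm).trans (m57)) ((m27.symm).trans (m22.symm)) rfl)
  have m64 : n66 = n196 := mb t426 t699 rfl rfl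
  have t865 : (1 : Q) * n243 = n243 := Lp.one_mul' _
  have t817 : (1 : Q) * n230 = n230 := Lp.one_mul' _
  obtain ⟨n242, t860⟩ : ∃ b, n31 * b = n18 := ⟨_, Lp.mul_ldiv _ _⟩
  have t701 : (1 : Q) * n197 = n197 := Lp.one_mul' _
  have t830 : n31 * n197 = n181 := ufr hU t320 t650 (rt t561 rfl ((m53.symm).trans (m1)) rfl) (rt t103 rfl rfl (m53)) (rt t301 (m31.symm) (m1) rfl) (rt t107 rfl rfl (m30.symm)) (rt t700 rfl (m34.trans (m61)) rfl) t701 t647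
  have t705 : n198 * (1 : Q) = n198 := Lp.mul_one' _
  have t863 : (1 : Q) * n242 = n198 := ufr hU (rt t324 rfl (m33) rfl) t326 t830 t644 t701 t703 (rt t59 rfl (m0.trans (m32)) rfl) t860 (rt t705 rfl (m0.trans (m32)) rfl)
  have m89 : n198 = n242 := mb t704 t863 rfl rfl
  have m90 : n230 = n31 := ma t816 t860 ((m66.symm).trans (m89)) rfl
  have t818 : n230 * (1 : Q) = n230 := Lp.mul_one' _
  obtain ⟨n234, t831⟩ : ∃ c, n195 * n31 = c := ⟨_, rfl⟩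
  have t695 : n195 * (1 : Q) = n195 := Lp.mul_one' _
  have t834 : n92 * n11 = n234 := ufr hU (rt t649 ((m61.symm).trans (m34.symm)) rfl rfl) (rt t320 rfl rfl (m34.trans (m61))) (rt t100 (m11) rfl rfl) (rt t562 rfl rfl (m53.symm)) (rt t693 ((m61.symm).trans (m34.symm)) rfl rfl) t695 (rt t107 ((m1.symm).trans (m53)) rfl rfl) (rt t301 (m31.symm) rfl (m30)) t831
  have m83 : n174 = n234 := mc t620 t834 (m34.symm) rfl
  have t624 : (1 : Q) * n175 = n175 := Lp.one_mul' _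
  have t866 : n243 * (1 : Q) = n243 := Lp.mul_one' _
  have t867 : (1 : Q) * n196 = n243 := ufr hU (rt t817 rfl (m90) rfl) (rt t818 (m90) rfl rfl) (rt t623 rfl ((m59.symm).trans ((m44.symm).trans (m26.symm))) rfl) (rt t831 rfl rfl (m83.symm)) (rt t624 rfl ((m59.symm).trans ((m44.symm).trans (m26.symm))) rfl) t864 t695 t696 t866
  have m91 : n243 = n196 := mb t865 t867 rfl rfl
  have m92 : n186 = n31 := mb t664 t864 (m64.trans (m91.symm)) rfl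
  have t663 : n186 * (1 : Q) = n186 := Lp.mul_one' _
  have t1004 : (1 : Q) * n283 = n85 := ufr hU t790 (rt t12 rfl rfl (m78.symm)) t995 t997 (rt t662 rfl (m92) rfl) t663 t998 t1001 (rt t298 ((m31.symm).trans (m92.symm)) rfl rfl)
  have m103 : n85 = n283 := mb t296 t1004 rfl rfl
  have t1037 : G * n289 = n292 := ufr hU t12 (rt t802 (m80.trans (m108)) rfl (m78)) t668 t665 (rt t1001 rfl (m103.symm) rfl) t998 (rt t1019 (m100.symm) rfl rfl) t1022 t1034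
  have t1394 : s * n31 = n393 := ufr hU t212 (rt t126 (m13) rfl rfl) (rt t1037 rfl ((m109.symm).trans (m16)) rfl) t1034 t1384 t1387 t997 t995 t1389
  have t109 : (1 : Q) * n32 = n32 := Lp.one_mul' _
  have t1143 : n322 * (1 : Q) = n322 := Lp.mul_one' _
  have t1147 : n51 * n212 = n323 := ufr hU (rt t110 (m73) rfl rfl) t109 t143 t144 t1141 t1143 (rt t172 rfl (m73.symm) rfl) (rt t752 rfl rfl (m71)) t1144
  have m120 : n209 = n323 := mc t741 t1147 (m72.symm) (m71.symm)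
  have t1496 : n51 * n38 = n368 := ufr hU (rt t330 (m72.symm) rfl rfl) t12 (rt t1492 rfl ((m150.symm).trans ((m70.symm).trans (m51.symm))) rfl) t1394 (rt t747 (m72.symm) ((m70.symm).trans (m51.symm)) rfl) t744 (rt t219 (m19.symm) rfl rfl) t216 (rt t1301 (m120.symm) rfl rfl)
  have t1302 : (1 : Q) * n368 = n368 := Lp.one_mul' _
  obtain ⟨n367, t1298⟩ : ∃ b, G * b = n279 := ⟨_, Lp.mul_ldiv _ _⟩
  have t1145 : (1 : Q) * n323 = n323 := Lp.one_mul' _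
  have t1146 : n323 * (1 : Q) = n323 := Lp.mul_one' _
  have t1304 : (1 : Q) * n367 = n368 := ufr hU t790 (rt t12 rfl rfl (m78.symm)) t111 (rt t754 rfl ((m32.symm).trans (m0.symm)) (m71)) (rt t1145 rfl ((m120.symm).trans (m75.trans (m12))) rfl) t1146 (rt t991 rfl (m101.symm) rfl) t1298 t1301
  have m133 : n368 = n367 := mb t1302 t1304 rfl rfl
  obtain ⟨n369, t1305⟩ : ∃ c, n278 * g = c := ⟨_, rfl⟩
  have t1308 : X * n367 = n369 := ufr hU t6 t12 t12 t6 (rt t991 rfl (m101.symm) rfl) t988 (rt t991 rfl (m101.symm) rfl) t1298 t1305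
  obtain ⟨n411, t1450⟩ : ∃ a, a * g = n407 := ⟨_, Lp.div_mul' _ _⟩
  obtain ⟨n171, t609⟩ : ∃ b, n135 * b = n136 := ⟨_, Lp.mul_ldiv _ _⟩
  obtain ⟨n318, t1125⟩ : ∃ c, n38 * n171 = c := ⟨_, rfl⟩
  have t1127 : n318 * (1 : Q) = n318 := Lp.mul_one' _
  have t480 : n135 * (1 : Q) = n135 := Lp.mul_one' _
  have t612 : n136 * n171 = n38 := ufr hU t481 t480 t480 t481 t483 (rt t266 rfl rfl (m47)) t483 t609 t131
  obtain ⟨n269, t954⟩ : ∃ b, n38 * b = n135 := ⟨_, Lp.mul_ldiv _ _⟩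
  obtain ⟨n244, t868⟩ : ∃ a, a * n61 = n136 := ⟨_, Lp.div_mul' _ _⟩
  obtain ⟨n270, t957⟩ : ∃ c, n244 * x = c := ⟨_, rfl⟩
  have t870 : n244 * (1 : Q) = n244 := Lp.mul_one' _
  have t869 : (1 : Q) * n244 = n244 := Lp.one_mul' _
  obtain ⟨n203, t720⟩ : ∃ c, n61 * n136 = c := ⟨_, rfl⟩
  obtain ⟨n204, t723⟩ : ∃ a, a * p = n203 := ⟨_, Lp.div_mul' _ _⟩
  obtain ⟨n207, t734⟩ : ∃ c, n204 * n27 = c := ⟨_, rfl⟩
  obtain ⟨n208, t737⟩ : ∃ b, n61 * b = n207 := ⟨_, Lp.mul_ldiv _ _⟩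
  obtain ⟨n200, t710⟩ : ∃ c, n61 * n66 = c := ⟨_, rfl⟩
  obtain ⟨n201, t713⟩ : ∃ a, a * p = n200 := ⟨_, Lp.div_mul' _ _⟩
  obtain ⟨n202, t716⟩ : ∃ c, n201 * g = c := ⟨_, rfl⟩
  have t717 : (1 : Q) * n202 = n202 := Lp.one_mul' _
  have t718 : n202 * (1 : Q) = n202 := Lp.mul_one' _
  have t697 : (1 : Q) * n196 = n196 := Lp.one_mul' _
  have t719 : n61 * (1 : Q) = n202 := ufr hU (rt t201 (m42.symm) rfl rfl) (rt t247 rfl rfl (m23)) (rt t697 rfl (m64.symm) rfl) (rt t227 rfl rfl (m64)) t710 t713 t12 (rt t355 ((m38.symm).trans (m0.symm)) rfl ((m38.symm).trans (m0.symm))) t716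
  have m67 : n202 = n61 := ma t718 t719 rfl rfl
  obtain ⟨n235, t835⟩ : ∃ c, n207 * n61 = c := ⟨_, rfl⟩
  have t725 : n204 * (1 : Q) = n204 := Lp.mul_one' _
  obtain ⟨n119, t419⟩ : ∃ c, n25 * n78 = c := ⟨_, rfl⟩
  have t267 : (1 : Q) * n77 = n77 := Lp.one_mul' _
  have t422 : g * n77 = n119 := ufr hU (rt t240 rfl (m1) rfl) t272 (rt t355 ((m38.symm).trans (m0.symm)) rfl rfl) (rt t6 rfl rfl (m0.trans (m38))) (rt t246 (m23) rfl rfl) (rt t82 rfl rfl (m23.symm)) t269 t267 t419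
  have t211 : g * n61 = n60 := ufr hU t16 t15 t15 t16 t8 t82 t8 t208 (rt t206 (m18.trans (m8.symm)) rfl rfl)
  have t726 : n61 * n61 = n204 := ufr hU (rt t201 (m42.symm) rfl rfl) (rt t246 (m23) rfl (m23)) (rt t422 rfl (m47) rfl) (rt t419 rfl ((m27.symm).trans (m22.symm)) rfl) t720 t723 (rt t206 (m18.trans (m8.symm)) rfl rfl) t211 t725
  have t736 : n207 * (1 : Q) = n207 := Lp.mul_one' _
  have t838 : n204 * p = n235 := ufr hU t725 t726 (rt t241 ((m24.symm).trans (m42.symm)) rfl rfl) (rt t497 rfl rfl (m49.trans (m22))) t734 t736 (rt t208 (m49.symm) rfl rfl) (rt t201 (m42.symm) rfl rfl) t835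
  have m84 : n203 = n235 := mc t723 t838 rfl rfl
  have t482 : (1 : Q) * n136 = n136 := Lp.one_mul' _
  have t871 : (1 : Q) * n208 = n244 := ufr hU (rt t717 rfl (m67) rfl) t719 t720 (rt t835 rfl rfl (m84.symm)) t482 t868 t736 t737 t870
  have m93 : n244 = n208 := mb t869 t871 rfl rfl
  obtain ⟨n163, t581⟩ : ∃ c, g * n83 = c := ⟨_, rfl⟩
  have t479 : (1 : Q) * n135 = n135 := Lp.one_mul' _
  have t584 : p * n135 = n163 := ufr hU (rt t89 rfl (m1) rfl) (rt t288 rfl rfl (m29.symm)) (rt t355 ((m38.symm).trans (m0.symm)) rfl rfl) (rt t6 rfl rfl (m0.trans (m38))) (rt t497 (m49) rfl rfl) (rt t563 rfl ((m53.symm).trans (m1)) rfl) (rt t478 rfl (m29) rfl) t479 t581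
  have t740 : p * n208 = n163 := ufr hU (rt t497 (m49) rfl rfl) (rt t241 ((m24.symm).trans (m42.symm)) rfl ((m22.symm).trans (m49.symm))) t726 t725 t208 (rt t246 rfl rfl (m23)) t734 t737 (rt t581 (m23.symm) (m29.symm) rfl)
  have m69 : n135 = n208 := mb t584 t740 rfl rfl
  have t960 : n136 * n269 = n270 := ufr hU t483 (rt t266 rfl rfl (m47)) t266 (rt t483 rfl rfl (m47.symm)) t481 (rt t870 rfl rfl (m93.trans (m69.symm))) t481 t954 t957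
  obtain ⟨n317, t1121⟩ : ∃ b, n278 * b = n77 := ⟨_, Lp.mul_ldiv _ _⟩
  have t990 : n279 * (1 : Q) = n279 := Lp.mul_one' _
  have t1124 : n38 * n317 = n135 := ufr hU (rt t990 (m102.symm) rfl rfl) t988 t988 t990 t266 (rt t483 rfl rfl (m47.symm)) (rt t266 (m102) rfl rfl) t1121 t481
  have m118 : n269 = n317 := mb t954 t1124 rfl rfl
  have t1128 : n278 * (1 : Q) = n318 := ufr hU t988 (rt t612 rfl rfl (m102)) t960 t957 (rt t1121 rfl (m118.symm) rfl) t266 (rt t609 (m69.trans (m93.symm)) rfl rfl) t483 t1125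
  have m119 : n318 = n278 := ma t1127 t1128 rfl rfl
  obtain ⟨n412, t1453⟩ : ∃ b, n38 * b = n411 := ⟨_, Lp.mul_ldiv _ _⟩
  have m94 : n171 = n61 := mb t609 t868 (m69.trans (m93.symm)) rfl
  obtain ⟨n473, t1661⟩ : ∃ c, g * n412 = c := ⟨_, rfl⟩
  obtain ⟨n40, t135⟩ : ∃ b, X * b = g := ⟨_, Lp.mul_ldiv _ _⟩
  obtain ⟨n474, t1664⟩ : ∃ c, n473 * n40 = c := ⟨_, rfl⟩
  obtain ⟨n255, t908⟩ : ∃ c, n25 * n110 = c := ⟨_, rfl⟩
  obtain ⟨n256, t911⟩ : ∃ a, a * x = n255 := ⟨_, Lp.div_mul' _ _⟩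
  obtain ⟨n106, t373⟩ : ∃ c, n25 * g = c := ⟨_, rfl⟩
  obtain ⟨n341, t1207⟩ : ∃ b, n256 * b = n106 := ⟨_, Lp.mul_ldiv _ _⟩
  obtain ⟨n342, t1210⟩ : ∃ c, g * g = c := ⟨_, rfl⟩
  obtain ⟨n257, t914⟩ : ∃ c, n256 * g = c := ⟨_, rfl⟩
  have t389 : (1 : Q) * n110 = n110 := Lp.one_mul' _
  have t917 : n25 * n26 = n257 := ufr hU t82 (rt t247 rfl rfl (m23)) t389 t388 t908 t911 t204 t207 t914
  have t376 : g * n26 = n106 := ufr hU (rt t240 rfl (m1) rfl) (rt t13 rfl rfl (m22)) (rt t356 rfl ((m38.symm).trans (m0.symm)) rfl) (rt t34 rfl (m1) rfl) (rt t246 (m23) rfl rfl) (rt t82 rfl rfl (m23.symm)) t247 (rt t85 rfl rfl (m23.symm)) t373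
  have t1213 : n25 * n341 = n342 := ufr hU (rt t917 rfl (m8.symm) rfl) t914 t914 (rt t917 rfl (m8.symm) rfl) t373 (rt t376 rfl (m8.symm) rfl) t373 t1207 t1210
  obtain ⟨n39, t132⟩ : ∃ a, a * n38 = g := ⟨_, Lp.div_mul' _ _⟩
  obtain ⟨n41, t138⟩ : ∃ c, n39 * g = c := ⟨_, rfl⟩
  have t139 : (1 : Q) * n41 = n41 := Lp.one_mul' _
  have t141 : (1 : Q) * n40 = n41 := ufr hU t130 t129 t129 t130 t7 t132 t7 t135 t138
  have m14 : n41 = n40 := mb t139 t141 rfl rfl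
  obtain ⟨n390, t1377⟩ : ∃ a, a * g = n341 := ⟨_, Lp.div_mul' _ _⟩
  obtain ⟨n84, t291⟩ : ∃ b, n25 * b = n69 := ⟨_, Lp.mul_ldiv _ _⟩
  obtain ⟨n216, t766⟩ : ∃ a, a * x = n84 := ⟨_, Lp.div_mul' _ _⟩
  obtain ⟨n391, t1380⟩ : ∃ c, n390 * x = c := ⟨_, rfl⟩
  have t1381 : (1 : Q) * n391 = n391 := Lp.one_mul' _
  have t1208 : (1 : Q) * n341 = n341 := Lp.one_mul' _
  have t1383 : (1 : Q) * n84 = n391 := ufr hU (rt t994 rfl (m101.symm) rfl) t82 t1213 t1210 t1208 t1377 (rt t563 rfl ((m53.symm).trans (m1)) rfl) (rt t291 rfl rfl ((m22.symm).trans (m49.symm))) t1380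
  have m140 : n391 = n84 := mb t1381 t1383 rfl rfl
  have m141 : n216 = n390 := ma t766 t1380 rfl (m140.symm)
  have t767 : (1 : Q) * n216 = n216 := Lp.one_mul' _
  obtain ⟨n217, t769⟩ : ∃ b, x * b = n82 := ⟨_, Lp.mul_ldiv _ _⟩
  obtain ⟨n142, t503⟩ : ∃ c, x * n84 = c := ⟨_, rfl⟩
  have t294 : g * n84 = n27 := ufr hU (rt t246 (m23) rfl rfl) (rt t82 rfl rfl (m23.symm)) t82 (rt t246 rfl rfl (m23)) (rt t240 rfl (m1) rfl) (rt t271 rfl rfl (m27.symm)) (rt t240 (m23.symm) (m1) rfl) t291 (rt t89 (m22.trans (m27)) (m1) rfl)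
  have t506 : n82 * n11 = n142 := ufr hU t287 (rt t294 rfl rfl (m29)) (rt t376 rfl (m8.symm) rfl) t373 t284 t13 t291 t240 t503
  have t292 : (1 : Q) * n84 = n84 := Lp.one_mul' _
  have t286 : n82 * (1 : Q) = n82 := Lp.mul_one' _
  have t768 : n216 * (1 : Q) = n216 := Lp.mul_one' _
  have t772 : (1 : Q) * n217 = n216 := ufr hU (rt t561 rfl ((m53.symm).trans (m1)) rfl) (rt t562 ((m53.symm).trans (m1)) rfl rfl) t503 (rt t506 rfl (m1) rfl) t292 t766 t286 t769 t768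
  have m76 : n216 = n217 := mb t767 t772 rfl rfl
  obtain ⟨n457, t1607⟩ : ∃ c, x * n39 = c := ⟨_, rfl⟩
  obtain ⟨n479, t1681⟩ : ∃ c, n82 * n46 = c := ⟨_, rfl⟩
  obtain ⟨n458, t1610⟩ : ∃ c, n457 * n46 = c := ⟨_, rfl⟩
  obtain ⟨n427, t1507⟩ : ∃ c, x * n46 = c := ⟨_, rfl⟩
  have t1013 : n286 * (1 : Q) = n286 := Lp.mul_one' _
  obtain ⟨n428, t1510⟩ : ∃ c, G * n427 = c := ⟨_, rfl⟩
  obtain ⟨n429, t1513⟩ : ∃ a, a * n46 = n428 := ⟨_, Lp.div_mul' _ _⟩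
  obtain ⟨n424, t1497⟩ : ∃ c, G * n40 = c := ⟨_, rfl⟩
  obtain ⟨n425, t1500⟩ : ∃ a, a * g = n424 := ⟨_, Lp.div_mul' _ _⟩
  have t134 : n39 * (1 : Q) = n39 := Lp.mul_one' _
  have t133 : (1 : Q) * n39 = n39 := Lp.one_mul' _
  have t1515 : n429 * (1 : Q) = n429 := Lp.mul_one' _
  obtain ⟨n430, t1516⟩ : ∃ c, n429 * n286 = c := ⟨_, rfl⟩
  obtain ⟨n426, t1503⟩ : ∃ c, n425 * x = c := ⟨_, rfl⟩
  have t1506 : G * n21 = n426 := ufr hU t12 t6 t135 (rt t994 rfl (m101.symm) rfl) t1497 t1500 (rt t1014 rfl ((m104.symm).trans ((m53.symm).trans (m1))) rfl) t67 t1503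
  have t1508 : (1 : Q) * n427 = n427 := Lp.one_mul' _
  have t1519 : G * n21 = n430 := ufr hU t155 t1014 t1508 t1507 t1510 t1513 (rt t30 rfl ((m1.symm).trans (m53.trans (m104))) rfl) t70 t1516
  have m151 : n426 = n430 := mc t1506 t1519 rfl rfl
  have m152 : n429 = n425 := ma t1516 t1503 ((m104.symm).trans ((m53.symm).trans (m1))) (m151.symm)
  have t1599 : G * n39 = n429 := ufr hU t12 (rt t790 rfl rfl (m78)) t141 t138 t1497 t1500 t134 t133 (rt t1515 (m152) rfl rfl)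
  have t1609 : n457 * (1 : Q) = n457 := Lp.mul_one' _
  have t1613 : x * n427 = n458 := ufr hU (rt t1013 ((m104.symm).trans ((m53.symm).trans (m1))) rfl rfl) (rt t155 rfl rfl (m53.trans (m104))) t1599 t1515 t1607 t1609 t1513 t1510 t1610
  obtain ⟨n144, t511⟩ : ∃ a, a * n106 = n60 := ⟨_, Lp.div_mul' _ _⟩
  obtain ⟨n304, t1075⟩ : ∃ c, g * n144 = c := ⟨_, rfl⟩
  obtain ⟨n422, t1488⟩ : ∃ c, n304 * n46 = c := ⟨_, rfl⟩
  obtain ⟨n355, t1256⟩ : ∃ b, n28 * b = n285 := ⟨_, Lp.mul_ldiv _ _⟩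
  obtain ⟨n356, t1259⟩ : ∃ a, a * x = n355 := ⟨_, Lp.div_mul' _ _⟩
  obtain ⟨n205, t727⟩ : ∃ a, a * n46 = (1 : Q) := ⟨_, Lp.div_mul' _ _⟩
  obtain ⟨n107, t377⟩ : ∃ c, n28 * n28 = c := ⟨_, rfl⟩
  obtain ⟨n108, t380⟩ : ∃ b, n107 * b = n100 := ⟨_, Lp.mul_ldiv _ _⟩
  obtain ⟨n357, t1262⟩ : ∃ c, n356 * g = c := ⟨_, rfl⟩
  have t1257 : (1 : Q) * n355 = n355 := Lp.one_mul' _
  have t379 : n107 * (1 : Q) = n107 := Lp.mul_one' _
  have t383 : n28 * n108 = n101 := ufr hU t377 t379 t379 t377 (rt t353 rfl ((m38.symm).trans (m0.symm)) rfl) (rt t351 rfl (m39) rfl) (rt t353 rfl ((m38.symm).trans (m0.symm)) rfl) t380 (rt t355 ((m38.symm).trans (m0.symm)) rfl rfl)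
  have t1265 : (1 : Q) * n108 = n357 := ufr hU (rt t1014 rfl ((m104.symm).trans ((m53.symm).trans (m1))) rfl) t93 t1256 (rt t1011 rfl ((m104.symm).trans ((m53.symm).trans (m1))) rfl) t1257 t1259 t12 (rt t383 rfl rfl ((m38.symm).trans (m0.symm))) t1262
  obtain ⟨n206, t730⟩ : ∃ c, n205 * g = c := ⟨_, rfl⟩
  have t733 : G * n108 = n206 := ufr hU t155 t93 t93 t155 t12 t727 t12 (rt t383 rfl rfl ((m38.symm).trans (m0.symm))) t730
  have t1261 : n356 * (1 : Q) = n356 := Lp.mul_one' _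
  have t1260 : (1 : Q) * n356 = n356 := Lp.one_mul' _
  have t729 : n205 * (1 : Q) = n205 := Lp.mul_one' _
  have t1309 : G * n356 = n205 := ufr hU t12 (rt t790 rfl rfl (m78)) t1265 t1262 t733 t730 t1261 t1260 t729
  obtain ⟨n421, t1484⟩ : ∃ b, x * b = n304 := ⟨_, Lp.mul_ldiv _ _⟩
  obtain ⟨n376, t1330⟩ : ∃ c, x * n355 = c := ⟨_, rfl⟩
  obtain ⟨n305, t1078⟩ : ∃ c, n304 * x = c := ⟨_, rfl⟩
  obtain ⟨n302, t1068⟩ : ∃ c, g * n44 = c := ⟨_, rfl⟩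
  have t993 : n280 * (1 : Q) = n280 := Lp.mul_one' _
  obtain ⟨n145, t514⟩ : ∃ c, n144 * n26 = c := ⟨_, rfl⟩
  obtain ⟨n161, t571⟩ : ∃ b, n25 * b = n145 := ⟨_, Lp.mul_ldiv _ _⟩
  have t512 : (1 : Q) * n144 = n144 := Lp.one_mul' _
  obtain ⟨n143, t507⟩ : ∃ c, n59 * n26 = c := ⟨_, rfl⟩
  have t510 : n25 * n61 = n143 := ufr hU t373 t376 (rt t246 (m23) rfl rfl) t247 (rt t206 (m18.trans (m8.symm)) rfl rfl) t204 t207 t211 t507
  have t374 : (1 : Q) * n106 = n106 := Lp.one_mul' _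
  have t517 : (1 : Q) * n61 = n145 := ufr hU t374 t376 (rt t376 rfl (m8.symm) rfl) t374 (rt t207 rfl (m8.symm) rfl) t511 t207 t211 t514
  have t516 : n145 * (1 : Q) = n145 := Lp.mul_one' _
  have t515 : (1 : Q) * n145 = n145 := Lp.one_mul' _
  have m50 : n145 = n61 := mb t515 t517 rfl rfl
  have t513 : n144 * (1 : Q) = n144 := Lp.mul_one' _
  have t574 : (1 : Q) * n161 = n144 := ufr hU (rt t207 rfl (m8.symm) rfl) (rt t206 (m18.trans (m8.symm)) rfl rfl) t510 (rt t507 rfl (m8.symm) rfl) t517 (rt t514 rfl (m8.symm) rfl) (rt t516 (m50.trans (m42)) rfl rfl) t571 t513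
  have m55 : n144 = n161 := mb t512 t574 rfl rfl
  have t1077 : n304 * (1 : Q) = n304 := Lp.mul_one' _
  have t1081 : g * n111 = n305 := ufr hU (rt t993 (m101.symm) rfl rfl) (rt t82 rfl rfl (m101)) (rt t571 rfl (m55.symm) rfl) (rt t804 rfl rfl (m80.trans (m108.trans (m50.symm)))) t1075 t1077 (rt t984 ((m108.symm).trans (m80.symm)) ((m53.symm).trans (m1)) rfl) (rt t391 rfl rfl (m99)) t1078
  have m112 : n302 = n305 := mc t1068 t1081 rfl (m26.trans (m44))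
  obtain ⟨n303, t1071⟩ : ∃ c, n302 * n280 = c := ⟨_, rfl⟩
  obtain ⟨n377, t1333⟩ : ∃ c, n376 * g = c := ⟨_, rfl⟩
  obtain ⟨n343, t1214⟩ : ∃ b, x * b = n303 := ⟨_, Lp.mul_ldiv _ _⟩
  have t1332 : n376 * (1 : Q) = n376 := Lp.mul_one' _
  obtain ⟨n130, t459⟩ : ∃ b, n28 * b = p := ⟨_, Lp.mul_ldiv _ _⟩
  obtain ⟨n55, t186⟩ : ∃ c, p * g = c := ⟨_, rfl⟩
  have t462 : x * n130 = n55 := ufr hU (rt t356 rfl ((m38.symm).trans (m0.symm)) rfl) t93 t93 (rt t356 rfl ((m38.symm).trans (m0.symm)) rfl) t13 (rt t271 rfl rfl ((m27.symm).trans (m22.symm))) t13 t459 (rt t186 (m22.trans (m27)) rfl rfl)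
  have t189 : g * p = n55 := ufr hU t8 t7 (rt t34 rfl (m1) rfl) (rt t36 rfl (m0.symm) rfl) t16 t15 t13 t14 t186
  have t1009 : (1 : Q) * n285 = n285 := Lp.one_mul' _
  have t1070 : n302 * (1 : Q) = n302 := Lp.mul_one' _
  have t1074 : g * n196 = n303 := ufr hU (rt t993 (m101.symm) rfl rfl) (rt t994 rfl rfl (m101)) (rt t1009 rfl ((m105.symm).trans (m96.symm)) rfl) t1010 t1068 t1070 (rt t230 ((m21.symm).trans (m96.trans (m105))) (m101) rfl) (rt t867 rfl rfl (m91.trans (m64.symm))) t1071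
  have t1110 : (1 : Q) * n314 = n314 := Lp.one_mul' _
  have t1217 : n28 * n343 = n314 := ufr hU (rt t423 rfl ((m27.symm).trans (m22.symm)) rfl) t699 t462 t189 t459 (rt t498 rfl rfl (m49)) t1074 t1214 (rt t1110 rfl ((m115.symm).trans (m64)) rfl)
  have t1336 : x * n343 = n377 := ufr hU (rt t1013 ((m104.symm).trans ((m53.symm).trans (m1))) rfl rfl) (rt t93 rfl rfl (m53.trans (m104))) t1256 t1010 t1330 t1332 (rt t1112 (m96.trans (m105)) rfl rfl) t1217 t1333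
  have m134 : n303 = n377 := mc t1214 t1336 rfl rfl
  have m135 : n302 = n376 := ma t1071 t1333 (m101.symm) (m134)
  have t1487 : (1 : Q) * n421 = n356 := ufr hU (rt t1014 rfl ((m104.symm).trans ((m53.symm).trans (m1))) rfl) (rt t1013 ((m104.symm).trans ((m53.symm).trans (m1))) rfl ((m104.symm).trans (m53.symm))) t1330 (rt t1078 rfl rfl ((m112.symm).trans (m135))) t1257 t1259 t1077 t1484 t1261
  have m148 : n356 = n421 := mb t1260 t1487 rfl rfl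
  have t1491 : x * g = n422 := ufr hU (rt t1013 ((m104.symm).trans ((m53.symm).trans (m1))) rfl rfl) (rt t155 rfl rfl (m53.trans (m104))) t1309 t729 (rt t1484 rfl (m148.symm) rfl) t1077 t727 t12 t1488
  obtain ⟨n306, t1082⟩ : ∃ c, n304 * p = c := ⟨_, rfl⟩
  obtain ⟨n162, t575⟩ : ∃ a, a * g = n145 := ⟨_, Lp.div_mul' _ _⟩
  have t577 : n162 * (1 : Q) = n162 := Lp.mul_one' _
  have t578 : n61 * n161 = n162 := ufr hU (rt t204 (m42.symm) rfl rfl) (rt t206 (m18.trans (m8.symm)) rfl rfl) (rt t206 (m18.trans (m8.symm)) rfl rfl) t204 (rt t516 (m50) rfl rfl) t575 (rt t516 (m50.trans (m42)) rfl rfl) t571 t577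
  have m68 : n162 = n201 := ma t575 t716 rfl (m50.trans (m67.symm))
  have t1085 : g * n66 = n306 := ufr hU (rt t993 (m101.symm) rfl rfl) (rt t201 (m42.symm) rfl (m101)) (rt t578 rfl (m55.symm) rfl) t577 t1075 t1077 (rt t713 (m68.symm) rfl rfl) t710 t1082
  have m113 : n303 = n306 := mc t1074 t1085 rfl (m64.symm)
  obtain ⟨n444, t1563⟩ : ∃ c, n304 * n427 = c := ⟨_, rfl⟩
  obtain ⟨n445, t1566⟩ : ∃ a, a * n46 = n444 := ⟨_, Lp.div_mul' _ _⟩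
  obtain ⟨n395, t1395⟩ : ∃ c, n302 * p = c := ⟨_, rfl⟩
  obtain ⟨n446, t1569⟩ : ∃ c, n445 * n422 = c := ⟨_, rfl⟩
  have m149 : p = n422 := mc t13 t1491 rfl rfl
  obtain ⟨n365, t1290⟩ : ∃ c, n304 * n27 = c := ⟨_, rfl⟩
  obtain ⟨n223, t791⟩ : ∃ c, n156 * x = c := ⟨_, rfl⟩
  have t794 : n61 * n111 = n223 := ufr hU (rt t201 (m42.symm) rfl rfl) t82 t82 t201 (rt t388 (m42.symm) rfl rfl) (rt t557 rfl rfl (m54.symm)) t388 t391 t791
  have t1293 : g * n239 = n365 := ufr hU (rt t563 rfl ((m53.symm).trans (m1)) rfl) (rt t241 ((m24.symm).trans (m42.symm)) rfl ((m22.symm).trans (m49.symm))) (rt t794 rfl ((m44.symm).trans (m26.symm)) rfl) t791 t1068 (rt t1078 rfl rfl (m112.symm)) (rt t978 (m100.symm) rfl rfl) t975 t1290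
  obtain ⟨n337, t1193⟩ : ∃ c, n302 * n158 = c := ⟨_, rfl⟩
  obtain ⟨n338, t1196⟩ : ∃ b, g * b = n337 := ⟨_, Lp.mul_ldiv _ _⟩
  have t1197 : (1 : Q) * n338 = n338 := Lp.one_mul' _
  obtain ⟨n159, t564⟩ : ∃ c, n86 * n21 = c := ⟨_, rfl⟩
  obtain ⟨n160, t567⟩ : ∃ c, n28 * n21 = c := ⟨_, rfl⟩
  obtain ⟨n103, t361⟩ : ∃ a, a * n25 = n11 := ⟨_, Lp.div_mul' _ _⟩
  have t363 : n103 * (1 : Q) = n103 := Lp.mul_one' _
  have t364 : x * n29 = n103 := ufr hU (rt t85 rfl (m8.symm) rfl) (rt t246 (m23) rfl (m23)) (rt t246 (m23) rfl rfl) (rt t85 rfl (m8.symm) (m23.symm)) (rt t356 rfl ((m38.symm).trans (m0.symm)) rfl) t361 (rt t356 rfl ((m38.symm).trans (m0.symm)) rfl) t96 t363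
  obtain ⟨n56, t190⟩ : ∃ c, x * n29 = c := ⟨_, rfl⟩
  have t193 : n28 * n11 = n56 := ufr hU t95 t99 t7 t8 t93 (rt t36 rfl (m0.symm) rfl) t96 t34 t190
  have m41 : n56 = n103 := mc t190 t364 rfl rfl
  have t565 : (1 : Q) * n159 = n159 := Lp.one_mul' _
  have t570 : x * n159 = n160 := ufr hU t30 t70 (rt t351 rfl (m39) rfl) (rt t301 rfl (m1) (m30.trans (m39.symm))) (rt t364 rfl (m10.symm) rfl) (rt t193 rfl (m1) (m41)) t564 t565 t567
  obtain ⟨n188, t669⟩ : ∃ a, a * g = n120 := ⟨_, Lp.div_mul' _ _⟩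
  obtain ⟨n189, t672⟩ : ∃ c, n188 * n158 = c := ⟨_, rfl⟩
  have t1199 : x * n338 = n189 := ufr hU t13 (rt t563 rfl rfl (m49)) (rt t1074 rfl (m64.symm) rfl) (rt t1071 rfl (m101.symm) rfl) (rt t699 rfl (m64.symm) rfl) t669 t1193 t1196 t672
  have t675 : n28 * n21 = n189 := ufr hU t93 (rt t561 rfl rfl (m53.symm)) t498 (rt t13 rfl rfl (m49.symm)) (rt t423 rfl ((m27.symm).trans (m22.symm)) rfl) t669 (rt t30 rfl ((m1.symm).trans (m53)) rfl) t70 t672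
  have m62 : n160 = n189 := mc t567 t675 rfl rfl
  have m125 : n159 = n338 := mb t570 t1199 rfl (m62)
  obtain ⟨n240, t853⟩ : ∃ a, a * p = n239 := ⟨_, Lp.div_mul' _ _⟩
  obtain ⟨n241, t856⟩ : ∃ c, n240 * n158 = c := ⟨_, rfl⟩
  have t859 : n31 * n21 = n241 := ufr hU (rt t100 (m11) rfl rfl) (rt t561 rfl rfl (m53.symm)) (rt t288 rfl (m29.symm) rfl) (rt t290 rfl ((m27.symm).trans (m22.symm)) rfl) t850 t853 (rt t30 rfl ((m1.symm).trans (m53)) rfl) t70 t856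
  have m88 : n159 = n241 := mc t564 t859 (m31.symm) rfl
  have t1398 : g * n239 = n395 := ufr hU (rt t563 rfl ((m53.symm).trans (m1)) rfl) t498 (rt t1197 rfl (m125.symm) rfl) (rt t856 rfl ((m53.symm).trans (m1)) ((m88.symm).trans (m125))) (rt t1196 rfl (m125.symm) rfl) (rt t1193 rfl ((m53.symm).trans (m1)) rfl) t853 t851 t1395
  have m143 : n365 = n395 := mc t1293 t1398 rfl rfl
  have t1489 : (1 : Q) * n422 = n422 := Lp.one_mul' _
  have t1572 : n304 * n83 = n446 := ufr hU t1488 t1489 t1508 t1507 t1563 t1566 (rt t290 rfl ((m27.symm).trans ((m22.symm).trans (m149))) rfl) t288 t1569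
  have m155 : n365 = n446 := mc t1290 t1572 rfl (m29)
  have m156 : n302 = n445 := ma t1395 t1569 (m149) ((m143.symm).trans (m155))
  have t1684 : x * n427 = n479 := ufr hU t1491 t1488 t1082 (rt t1333 rfl rfl ((m134.symm).trans (m113))) (rt t290 rfl ((m27.symm).trans (m22.symm)) rfl) t287 (rt t1566 ((m156.symm).trans (m135)) rfl rfl) t1563 t1681
  have m163 : n458 = n479 := mc t1613 t1684 rfl rfl
  have m164 : n82 = n457 := ma t1681 t1610 rfl (m163.symm)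
  have m165 : n217 = n39 := mb t769 t1607 rfl (m164)
  have m166 : n341 = n41 := mc t1377 t138 ((m141.symm).trans (m76.trans (m165))) rfl
  obtain ⟨n112, t395⟩ : ∃ a, a * n40 = n38 := ⟨_, Lp.div_mul' _ _⟩
  obtain ⟨n113, t398⟩ : ∃ c, n112 * g = c := ⟨_, rfl⟩
  have t401 : X * n38 = n113 := ufr hU t135 (rt t247 rfl rfl (m23)) t247 (rt t135 rfl rfl (m23.symm)) t129 t395 t129 t130 t398
  have t1452 : n411 * (1 : Q) = n411 := Lp.mul_one' _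
  have t397 : n112 * (1 : Q) = n112 := Lp.mul_one' _
  have t1456 : X * n412 = n112 := ufr hU (rt t991 rfl (m101.symm) rfl) (rt t990 (m102.symm) rfl rfl) (rt t1437 (m102.symm) (m102.symm) rfl) t1450 t401 t398 t1452 t1453 t397
  have t1663 : n473 * (1 : Q) = n473 := Lp.mul_one' _
  have t1667 : g * n280 = n474 := ufr hU (rt t993 (m101.symm) rfl rfl) (rt t135 rfl rfl (m101)) t1456 t397 t1661 t1663 t395 (rt t991 rfl rfl (m102.symm)) t1664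
  have m161 : n342 = n474 := mc t1210 t1667 rfl (m101)
  have m167 : n473 = n25 := ma t1664 t1213 ((m14.symm).trans (m166.symm)) (m161.symm)
  have m168 : n61 = n412 := mb t211 t1661 rfl (m18.trans ((m8.symm).trans (m167.symm)))
  have m170 : n318 = n411 := mc t1125 t1453 rfl (m94.trans (m168))
  have m171 : n369 = n407 := mc t1305 t1450 ((m119.symm).trans (m170)) rfl
  have m172 : n408 = n367 := mb t1440 t1308 rfl (m171.symm)
  have m173 : n51 = n409 := ma t1496 t1443 rfl (m133.trans (m172.symm))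
  have m174 : n351 = n410 := mc t1242 t1446 (m73.trans (m173)) (m101)
  have t1243 : (1 : Q) * n351 = n351 := Lp.one_mul' _
  have t1235 : n348 * (1 : Q) = n348 := Lp.mul_one' _
  have t1245 : (1 : Q) * n350 = n351 := ufr hU t790 (rt t12 rfl rfl (m78.symm)) t1233 t1235 (rt t109 rfl (m73) rfl) t110 t1236 t1239 t1242
  have m128 : n351 = n350 := mb t1243 t1245 rfl rfl
  have m175 : n352 = n349 := mc t1246 t1239 rfl ((m145.symm).trans ((m174.symm).trans (m128)))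
  have m176 : n348 = n353 := ma t1236 t1249 rfl (m175.symm)
  have m177 : n220 = n51 := mb t897 t1233 rfl (m130.trans (m176.symm))
  have m182 : n322 = X := ma t1144 t783 (m73.trans (m177.symm)) (m120.symm)
  have m183 : s = n42 := mb t108 t1141 (m73) (m182.symm)
  have m190 : n73 = n307 := mc t252 t1086 ((m19.symm).trans (m183)) rfl
  obtain ⟨n381, t1347⟩ : ∃ a, a * X = n134 := ⟨_, Lp.div_mul' _ _⟩
  obtain ⟨n383, t1353⟩ : ∃ b, X * b = n381 := ⟨_, Lp.mul_ldiv _ _⟩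
  obtain ⟨n382, t1350⟩ : ∃ a, a * X = n42 := ⟨_, Lp.div_mul' _ _⟩
  have m184 : G = n382 := ma t222 t1350 rfl ((m19.symm).trans (m183))
  have t1351 : (1 : Q) * n382 = n382 := Lp.one_mul' _
  have t260 : (1 : Q) * n75 = n75 := Lp.one_mul' _
  have t476 : n134 * (1 : Q) = n134 := Lp.mul_one' _
  have t477 : X * n42 = n134 := ufr hU t6 (rt t355 ((m38.symm).trans (m0.symm)) rfl ((m38.symm).trans (m0.symm))) t260 t259 t471 t474 t144 t143 t476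
  have t1349 : n381 * (1 : Q) = n381 := Lp.mul_one' _
  have t1352 : n382 * (1 : Q) = n382 := Lp.mul_one' _
  have t1356 : (1 : Q) * n383 = n382 := ufr hU (rt t752 rfl (m71) rfl) t754 t477 t1347 t143 t1350 (rt t1349 rfl (m0.trans (m32)) rfl) t1353 (rt t1352 rfl (m0.trans (m32)) rfl)
  have m137 : n382 = n383 := mb t1351 t1356 rfl rfl
  have m185 : n42 = n381 := mc t142 t1353 rfl (m184.trans (m137))
  have m186 : n307 = n134 := mc t1086 t1347 (m185) rfl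
  have m191 : r = n134 := mc t27 t477 rfl (m183)
  have m192 : n321 = n89 := mc t1137 t312 (m19.symm) (m190.trans (m186.trans (m191.symm)))
  have m193 : n64 = n320 := mb t309 t1140 rfl (m192.symm)
  have m194 : n37 = n326 := mc t212 t1155 (m19.trans (m193)) (m107.symm)
  have t1136 : n320 * (1 : Q) = n320 := Lp.mul_one' _
  have t1158 : n62 * n64 = n326 := ufr hU (rt t786 (m107) rfl rfl) t785 t253 t254 (rt t1134 (m107) rfl rfl) t1136 (rt t255 rfl ((m25.symm).trans (m107.symm)) rfl) t220 t1155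
  have m123 : n228 = n326 := mc t809 t1158 rfl (m19)
  have m197 : n49 = n229 := mc t215 t812 ((m13.symm).trans (m194.trans (m123.symm))) rfl
  have m198 : n48 = n62 := ma t165 t815 rfl (m197)
  have m201 : n433 = n35 := mc t1527 t162 (m198.symm) rfl
  have m202 : n149 = n434 := mc t530 t1530 rfl (m201.symm)
  have m203 : n435 = n150 := ma t1533 t533 rfl (m202.symm)
  have m204 : n400 = n221 := mb t1415 t1536 rfl (m203.symm)
  have m205 : n420 = n399 := mc t1480 t1412 rfl ((m107.symm).trans (m204.symm))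
  have t1024 : n289 * (1 : Q) = n289 := Lp.mul_one' _
  have t1028 : n290 * (1 : Q) = n290 := Lp.mul_one' _
  have t1029 : x * n289 = n290 := ufr hU t3 (rt t790 rfl rfl (m78)) t127 t124 t57 t1026 (rt t1024 ((m109.symm).trans (m16)) rfl rfl) (rt t1025 rfl rfl (m109)) t1028
  obtain ⟨n389, t1373⟩ : ∃ c, n61 * s = c := ⟨_, rfl⟩
  obtain ⟨n417, t1471⟩ : ∃ a, a * X = n389 := ⟨_, Lp.div_mul' _ _⟩
  obtain ⟨n418, t1474⟩ : ∃ c, n417 * n62 = c := ⟨_, rfl⟩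
  obtain ⟨n419, t1477⟩ : ∃ b, n61 * b = n418 := ⟨_, Lp.mul_ldiv _ _⟩
  have t1483 : x * n419 = n420 := ufr hU t3 (rt t802 (m80.trans (m108)) rfl (m78)) t1373 t1471 (rt t63 rfl (m4.symm) rfl) t60 t1474 t1477 t1480
  have t555 : (1 : Q) * n156 = n156 := Lp.one_mul' _
  obtain ⟨n164, t585⟩ : ∃ c, n60 * G = c := ⟨_, rfl⟩
  obtain ⟨n165, t588⟩ : ∃ b, g * b = n164 := ⟨_, Lp.mul_ldiv _ _⟩
  have t591 : (1 : Q) * n165 = n156 := ufr hU (rt t355 ((m38.symm).trans (m0.symm)) rfl rfl) (rt t9 rfl rfl (m0.trans (m38))) t211 t206 t517 t516 t585 t588 (rt t554 (m50.symm) rfl rfl)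
  have m56 : n156 = n165 := mb t555 t591 rfl rfl
  obtain ⟨n24, t78⟩ : ∃ a, a * x = X := ⟨_, Lp.div_mul' _ _⟩
  obtain ⟨n248, t883⟩ : ∃ c, n24 * G = c := ⟨_, rfl⟩
  have t886 : X * n165 = n248 := ufr hU t6 t9 (rt t246 (m23) rfl rfl) (rt t82 rfl rfl (m23.symm)) (rt t754 rfl ((m32.symm).trans (m0.symm)) rfl) (rt t78 rfl rfl (m71.symm)) (rt t585 (m18.trans (m8.symm)) rfl rfl) t588 t883
  obtain ⟨n50, t169⟩ : ∃ a, a * G = X := ⟨_, Lp.div_mul' _ _⟩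
  obtain ⟨n127, t448⟩ : ∃ c, n50 * n42 = c := ⟨_, rfl⟩
  obtain ⟨n384, t1357⟩ : ∃ b, n51 * b = n127 := ⟨_, Lp.mul_ldiv _ _⟩
  obtain ⟨n385, t1360⟩ : ∃ c, X * n384 = c := ⟨_, rfl⟩
  obtain ⟨n386, t1363⟩ : ∃ a, a * X = n385 := ⟨_, Lp.div_mul' _ _⟩
  obtain ⟨n388, t1369⟩ : ∃ b, X * b = n386 := ⟨_, Lp.mul_ldiv _ _⟩
  obtain ⟨n309, t1092⟩ : ∃ c, n248 * X = c := ⟨_, rfl⟩
  obtain ⟨n360, t1272⟩ : ∃ c, n24 * s = c := ⟨_, rfl⟩
  obtain ⟨n13, t40⟩ : ∃ b, x * b = X := ⟨_, Lp.mul_ldiv _ _⟩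
  obtain ⟨n308, t1089⟩ : ∃ b, X * b = n307 := ⟨_, Lp.mul_ldiv _ _⟩
  have t80 : n24 * (1 : Q) = n24 := Lp.mul_one' _
  obtain ⟨n14, t43⟩ : ∃ c, X * X = c := ⟨_, rfl⟩
  have t81 : X * X = n24 := ufr hU t6 t39 (rt t39 rfl (m0.symm) rfl) t6 t5 t78 (rt t5 rfl (m0) rfl) t4 (rt t80 rfl (m0) rfl)
  have m7 : n14 = n24 := mc t43 t81 rfl rfl
  have t44 : (1 : Q) * n14 = n14 := Lp.one_mul' _
  have t46 : (1 : Q) * n13 = n14 := ufr hU (rt t39 rfl (m0.symm) rfl) t3 t3 (rt t39 rfl (m0.symm) rfl) t4 t5 t4 t40 t43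
  have m2 : n14 = n13 := mb t44 t46 rfl rfl
  have t885 : n248 * (1 : Q) = n248 := Lp.mul_one' _
  have t1095 : n13 * n308 = n309 := ufr hU (rt t80 ((m7.symm).trans (m2)) rfl rfl) t81 t142 t144 (rt t883 ((m7.symm).trans (m2)) rfl rfl) t885 t1086 t1089 t1092
  have m187 : n42 = n308 := mb t477 t1089 rfl (m186.symm)
  have m188 : n360 = n309 := mc t1272 t1095 ((m7.symm).trans (m2)) (m183.trans (m187))
  obtain ⟨n358, t1266⟩ : ∃ c, n323 * s = c := ⟨_, rfl⟩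
  obtain ⟨n359, t1269⟩ : ∃ b, n51 * b = n358 := ⟨_, Lp.mul_ldiv _ _⟩
  have t1275 : X * n359 = n360 := ufr hU (rt t754 rfl ((m32.symm).trans (m0.symm)) rfl) (rt t108 (m73) rfl (m71.symm)) (rt t1147 rfl (m71) rfl) t1146 t81 t80 t1266 t1269 t1272
  obtain ⟨n183, t651⟩ : ∃ c, X * n32 = c := ⟨_, rfl⟩
  have m219 : n183 = n209 := mc t651 t783 rfl (m73.trans (m177.symm))
  have t171 : n50 * (1 : Q) = n50 := Lp.mul_one' _
  have t175 : X * n51 = n50 := ufr hU t142 t144 t144 t142 t5 t169 t5 t172 t171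
  have m74 : n50 = n183 := mc t175 t651 rfl (m73.symm)
  have m266 : n358 = n127 := mc t1266 t448 ((m120.symm).trans ((m219.symm).trans (m74.symm))) (m183)
  have m267 : n384 = n359 := mb t1357 t1269 rfl (m266.symm)
  have m269 : n360 = n385 := mc t1275 t1360 rfl (m267.symm)
  have m270 : n248 = n386 := ma t1092 t1363 rfl ((m188.symm).trans (m269))
  have m271 : n165 = n388 := mb t886 t1369 rfl (m270)
  obtain ⟨n387, t1366⟩ : ∃ a, a * X = n384 := ⟨_, Lp.div_mul' _ _⟩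
  have t1367 : (1 : Q) * n387 = n387 := Lp.one_mul' _
  have t1358 : (1 : Q) * n384 = n384 := Lp.one_mul' _
  have t1365 : n386 * (1 : Q) = n386 := Lp.mul_one' _
  have t1368 : n387 * (1 : Q) = n387 := Lp.mul_one' _
  have t1372 : (1 : Q) * n388 = n387 := ufr hU (rt t752 rfl (m71) rfl) t754 t1360 t1363 t1358 t1366 (rt t1365 rfl (m0.trans (m32)) rfl) t1369 (rt t1368 rfl (m0.trans (m32)) rfl)
  have m138 : n387 = n388 := mb t1367 t1372 rfl rfl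
  have t1374 : (1 : Q) * n389 = n389 := Lp.one_mul' _
  obtain ⟨n193, t686⟩ : ∃ c, x * n61 = c := ⟨_, rfl⟩
  obtain ⟨n213, t756⟩ : ∃ c, n193 * X = c := ⟨_, rfl⟩
  obtain ⟨n214, t759⟩ : ∃ b, x * b = n213 := ⟨_, Lp.mul_ldiv _ _⟩
  obtain ⟨n215, t762⟩ : ∃ c, n209 * X = c := ⟨_, rfl⟩
  obtain ⟨n194, t689⟩ : ∃ c, n193 * n31 = c := ⟨_, rfl⟩
  have t688 : n193 * (1 : Q) = n193 := Lp.mul_one' _
  have t692 : x * n153 = n194 := ufr hU (rt t562 ((m53.symm).trans (m1)) rfl rfl) (rt t103 rfl rfl (m53)) t208 (rt t246 rfl rfl (m23)) t686 t688 (rt t540 (m23.symm) rfl rfl) t543 t689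
  have t765 : n51 * n214 = n215 := ufr hU (rt t330 (m72.symm) rfl rfl) t3 (rt t692 rfl (m51.symm) rfl) t689 (rt t747 (m72.symm) ((m70.symm).trans (m51.symm)) rfl) t744 t756 t759 t762
  obtain ⟨n236, t839⟩ : ∃ c, n61 * X = c := ⟨_, rfl⟩
  have t842 : (1 : Q) * n214 = n236 := ufr hU t790 (rt t3 rfl rfl (m78.symm)) t686 t688 (rt t717 rfl (m67) rfl) t719 t756 t759 t839
  have t1376 : (1 : Q) * n359 = n389 := ufr hU (rt t752 rfl (m71) rfl) (rt t108 (m73) rfl (m71.symm)) t765 t762 t842 t839 (rt t1266 (m120.symm) rfl rfl) t1269 t1373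
  have m139 : n389 = n359 := mb t1374 t1376 rfl rfl
  have m268 : n417 = n387 := ma t1471 t1366 rfl (m139.trans (m267.symm))
  have m272 : n288 = n418 := mc t1019 t1474 ((m100.symm).trans (m56.trans (m271.trans ((m138.symm).trans (m268.symm))))) rfl
  have m273 : n419 = n289 := mb t1477 t1022 rfl (m272.symm)
  have m274 : n290 = n420 := mc t1029 t1483 rfl (m273.symm)
  have m275 : n310 = n291 := mc t1409 t1030 ((m205.symm).trans (m274.symm)) rfl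
  have m276 : n311 = n231 := mb t1099 t1033 rfl (m275)
  have m277 : n230 = n312 := ma t822 t1102 rfl (m81.trans (m276.symm))
  have t1701 : (1 : Q) * n484 = n484 := Lp.one_mul' _
  obtain ⟨n273, t968⟩ : ∃ c, n79 * n44 = c := ⟨_, rfl⟩
  obtain ⟨n274, t971⟩ : ∃ a, a * x = n273 := ⟨_, Lp.div_mul' _ _⟩
  have t972 : (1 : Q) * n274 = n274 := Lp.one_mul' _
  obtain ⟨n80, t276⟩ : ∃ c, n79 * n11 = c := ⟨_, rfl⟩
  have t277 : (1 : Q) * n80 = n80 := Lp.one_mul' _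
  have t279 : (1 : Q) * n31 = n80 := ufr hU t90 t89 (rt t89 rfl (m1) rfl) t90 (rt t34 rfl (m1) rfl) t273 t34 t103 t276
  have m28 : n80 = n31 := mb t277 t279 rfl rfl
  have t973 : n274 * (1 : Q) = n274 := Lp.mul_one' _
  have t974 : n79 * n31 = n274 := ufr hU (rt t276 rfl (m1) rfl) (rt t663 (m92) rfl (m92.trans (m28.symm))) (rt t623 rfl ((m59.symm).trans ((m44.symm).trans (m26.symm))) rfl) (rt t620 rfl (m1) rfl) t968 t971 (rt t649 (m61.symm) rfl rfl) (rt t320 rfl rfl (m34.trans (m61))) t973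
  have m98 : n148 = n274 := mc t526 t974 rfl rfl
  obtain ⟨n319, t1129⟩ : ∃ c, n274 * n186 = c := ⟨_, rfl⟩
  have t996 : (1 : Q) * n281 = n281 := Lp.one_mul' _
  have t1133 : n79 * n281 = n319 := ufr hU (rt t276 rfl (m1) rfl) (rt t662 rfl rfl (m92.trans (m28.symm))) (rt t1009 rfl ((m105.symm).trans (m96.symm)) rfl) (rt t1011 rfl ((m104.symm).trans ((m53.symm).trans (m1))) rfl) t968 t971 (rt t995 rfl (m92.symm) rfl) t996 t1129
  obtain ⟨n405, t1429⟩ : ∃ a, a * x = n401 := ⟨_, Lp.div_mul' _ _⟩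
  obtain ⟨n406, t1432⟩ : ∃ b, n44 * b = n405 := ⟨_, Lp.mul_ldiv _ _⟩
  obtain ⟨n99, t346⟩ : ∃ c, G * n44 = c := ⟨_, rfl⟩
  obtain ⟨n138, t488⟩ : ∃ c, n137 * x = c := ⟨_, rfl⟩
  have t489 : (1 : Q) * n138 = n138 := Lp.one_mul' _
  obtain ⟨n45, t152⟩ : ∃ a, a * n44 = n11 := ⟨_, Lp.div_mul' _ _⟩
  obtain ⟨n98, t343⟩ : ∃ b, n45 * b = n44 := ⟨_, Lp.mul_ldiv _ _⟩
  obtain ⟨n47, t158⟩ : ∃ c, n45 * x = c := ⟨_, rfl⟩
  have t161 : (1 : Q) * n46 = n47 := ufr hU t150 t149 t149 t150 (rt t34 rfl (m1) rfl) t152 (rt t34 rfl (m1) rfl) t155 t158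
  have t491 : (1 : Q) * n98 = n138 := ufr hU t161 t158 t152 t155 (rt t394 rfl ((m44.symm).trans (m26.symm)) rfl) t485 t149 t343 t488
  have m48 : n138 = n98 := mb t489 t491 rfl rfl
  have t347 : (1 : Q) * n99 = n99 := Lp.one_mul' _
  have t349 : (1 : Q) * n98 = n99 := ufr hU (rt t34 rfl (m1) rfl) t152 t152 (rt t34 rfl (m1) rfl) (rt t265 rfl (m26.symm) rfl) t149 (rt t265 rfl (m26.symm) rfl) t343 t346
  have m37 : n99 = n98 := mb t347 t349 rfl rfl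
  have t1431 : n405 * (1 : Q) = n405 := Lp.mul_one' _
  have t487 : n137 * (1 : Q) = n137 := Lp.mul_one' _
  have t1435 : G * n406 = n137 := ufr hU (rt t1011 rfl ((m104.symm).trans ((m53.symm).trans (m1))) rfl) (rt t1010 ((m105.symm).trans (m96.symm)) rfl rfl) (rt t1416 ((m105.symm).trans (m96.symm)) ((m105.symm).trans (m96.symm)) rfl) t1429 t346 (rt t488 rfl rfl (m48.trans (m37.symm))) t1431 t1432 t487
  obtain ⟨n316, t1117⟩ : ∃ c, n44 * n186 = c := ⟨_, rfl⟩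
  have t1119 : n316 * (1 : Q) = n316 := Lp.mul_one' _
  obtain ⟨n271, t961⟩ : ∃ b, n44 * b = n185 := ⟨_, Lp.mul_ldiv _ _⟩
  obtain ⟨n272, t964⟩ : ∃ c, n185 * g = c := ⟨_, rfl⟩
  have t967 : n66 * n271 = n272 := ufr hU (rt t866 (m91.trans (m64.symm)) rfl rfl) (rt t230 (m21.symm) rfl (m64.trans (m91.symm))) (rt t230 (m21.symm) rfl rfl) (rt t866 rfl rfl (m91.trans (m64.symm))) t658 t660 (rt t658 (m64.trans (m91.symm)) rfl rfl) t961 t964
  obtain ⟨n315, t1113⟩ : ∃ b, n284 * b = n314 := ⟨_, Lp.mul_ldiv _ _⟩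
  have t1111 : n314 * (1 : Q) = n314 := Lp.mul_one' _
  have t1116 : n44 * n315 = n185 := ufr hU (rt t1010 ((m105.symm).trans (m96.symm)) rfl rfl) t1008 t1008 t1010 t1112 t1111 (rt t1112 (m96.trans (m105)) rfl rfl) t1113 (rt t658 (m115) rfl rfl)
  have m116 : n271 = n315 := mb t961 t1116 rfl rfl
  have t1120 : n284 * (1 : Q) = n316 := ufr hU t1008 (rt t664 rfl rfl ((m59.symm).trans ((m44.symm).trans ((m26.symm).trans (m96.trans (m105)))))) t967 t964 (rt t1113 rfl (m116.symm) rfl) t1112 t661 (rt t1111 (m115.symm) rfl (m115.symm)) t1117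
  have m117 : n316 = n284 := ma t1119 t1120 rfl rfl
  obtain ⟨n370, t1310⟩ : ∃ c, n284 * x = c := ⟨_, rfl⟩
  obtain ⟨n260, t925⟩ : ∃ a, a * n44 = n133 := ⟨_, Lp.div_mul' _ _⟩
  obtain ⟨n335, t1185⟩ : ∃ b, n260 * b = n75 := ⟨_, Lp.mul_ldiv _ _⟩
  obtain ⟨n172, t613⟩ : ∃ a, a * n133 = n75 := ⟨_, Lp.div_mul' _ _⟩
  obtain ⟨n173, t616⟩ : ∃ c, n172 * n75 = c := ⟨_, rfl⟩
  obtain ⟨n261, t928⟩ : ∃ c, n260 * n75 = c := ⟨_, rfl⟩
  have t472 : (1 : Q) * n133 = n133 := Lp.one_mul' _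
  have t931 : X * n133 = n261 := ufr hU (rt t262 rfl (m26.symm) rfl) t260 t260 (rt t262 rfl (m26.symm) rfl) t471 t925 t471 t472 t928
  have t1188 : X * n335 = n173 := ufr hU t931 t928 t925 t472 (rt t262 rfl (m26.symm) rfl) t613 t260 t1185 t616
  have t617 : (1 : Q) * n173 = n173 := Lp.one_mul' _
  have t619 : (1 : Q) * n76 = n173 := ufr hU t472 t471 t471 t472 t260 t613 t260 t262 t616
  have m58 : n173 = n76 := mb t617 t619 rfl rfl
  have t1313 : G * n335 = n370 := ufr hU t12 t6 t6 t12 (rt t1011 rfl ((m104.symm).trans ((m53.symm).trans (m1))) rfl) t1008 (rt t1011 rfl ((m104.symm).trans ((m53.symm).trans (m1))) rfl) (rt t1188 rfl rfl (m58.trans ((m26.symm).trans (m96.trans (m105))))) t1310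
  obtain ⟨n52, t176⟩ : ∃ a, a * n42 = n37 := ⟨_, Lp.div_mul' _ _⟩
  obtain ⟨n54, t182⟩ : ∃ c, n52 * G = c := ⟨_, rfl⟩
  obtain ⟨n366, t1294⟩ : ∃ c, n54 * x = c := ⟨_, rfl⟩
  have t1295 : (1 : Q) * n366 = n366 := Lp.one_mul' _
  obtain ⟨n53, t179⟩ : ∃ b, X * b = n37 := ⟨_, Lp.mul_ldiv _ _⟩
  have t185 : (1 : Q) * n53 = n54 := ufr hU t143 t142 t142 t143 t127 t176 t127 t179 t182
  have t184 : n54 * (1 : Q) = n54 := Lp.mul_one' _
  have t1297 : (1 : Q) * n335 = n366 := ufr hU t790 (rt t6 rfl rfl (m78.symm)) t179 t126 t185 t184 (rt t1011 (m13.symm) ((m104.symm).trans ((m53.symm).trans (m1))) rfl) (rt t1188 rfl rfl (m58.trans ((m26.symm).trans (m96.trans (m105))))) t1294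
  have m132 : n366 = n335 := mb t1295 t1297 rfl rfl
  obtain ⟨n375, t1326⟩ : ∃ c, n229 * x = c := ⟨_, rfl⟩
  obtain ⟨n475, t1668⟩ : ∃ c, G * n48 = c := ⟨_, rfl⟩
  have m199 : n229 = n475 := mc t812 t1668 (m123.trans ((m194.symm).trans (m13))) (m198.symm)
  obtain ⟨n476, t1671⟩ : ∃ a, a * G = n475 := ⟨_, Lp.div_mul' _ _⟩
  have m200 : n48 = n476 := ma t165 t1671 rfl (m197.trans (m199))
  have m206 : n52 = n62 := ma t176 t1158 ((m183.symm).trans (m19)) (m194)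
  have m210 : n475 = n54 := mc t1671 t182 ((m200.symm).trans (m198.trans (m206.symm))) rfl
  have m211 : n375 = n366 := mc t1326 t1294 (m199.trans (m210)) rfl
  obtain ⟨n301, t1064⟩ : ∃ c, G * n61 = c := ⟨_, rfl⟩
  obtain ⟨n371, t1314⟩ : ∃ c, X * n301 = c := ⟨_, rfl⟩
  obtain ⟨n372, t1317⟩ : ∃ a, a * n61 = n371 := ⟨_, Lp.div_mul' _ _⟩
  obtain ⟨n373, t1320⟩ : ∃ c, n372 * x = c := ⟨_, rfl⟩
  obtain ⟨n374, t1323⟩ : ∃ b, X * b = n373 := ⟨_, Lp.mul_ldiv _ _⟩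
  obtain ⟨n300, t1061⟩ : ∃ b, p * b = n193 := ⟨_, Lp.mul_ldiv _ _⟩
  obtain ⟨n344, t1218⟩ : ∃ c, n62 * n300 = c := ⟨_, rfl⟩
  have t1065 : (1 : Q) * n301 = n301 := Lp.one_mul' _
  have t1067 : (1 : Q) * n300 = n301 := ufr hU (rt t994 rfl (m101.symm) rfl) t208 (rt t497 (m49) rfl rfl) (rt t13 rfl rfl (m49.symm)) t790 (rt t12 rfl rfl (m78.symm)) t686 t1061 t1064
  have m111 : n301 = n300 := mb t1065 t1067 rfl rfl
  obtain ⟨n345, t1222⟩ : ∃ c, n229 * n227 = c := ⟨_, rfl⟩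
  obtain ⟨n346, t1225⟩ : ∃ b, n62 * b = n345 := ⟨_, Lp.mul_ldiv _ _⟩
  have t814 : n229 * (1 : Q) = n229 := Lp.mul_one' _
  have t1228 : (1 : Q) * n346 = n301 := ufr hU t790 t805 t815 t814 t127 t126 t1222 t1225 (rt t1064 (m13.symm) (m108.symm) rfl)
  have m126 : n300 = n346 := mb t1067 t1228 rfl rfl
  have m127 : n344 = n345 := mc t1218 t1225 rfl (m126)
  have t1329 : n62 * n374 = n375 := ufr hU (rt t805 rfl (m108) rfl) (rt t6 rfl rfl (m78.symm)) t1314 t1317 (rt t1218 rfl (m111.symm) rfl) (rt t1222 rfl (m108) (m127.symm)) t1320 t1323 t1326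
  obtain ⟨n146, t518⟩ : ∃ b, n79 * b = n87 := ⟨_, Lp.mul_ldiv _ _⟩
  obtain ⟨n237, t843⟩ : ∃ a, a * x = n146 := ⟨_, Lp.div_mul' _ _⟩
  obtain ⟨n404, t1425⟩ : ∃ c, n403 * n286 = c := ⟨_, rfl⟩
  obtain ⟨n122, t431⟩ : ∃ b, n43 * b = n37 := ⟨_, Lp.mul_ldiv _ _⟩
  obtain ⟨n450, t1583⟩ : ∃ c, n122 * G = c := ⟨_, rfl⟩
  obtain ⟨n454, t1595⟩ : ∃ c, n450 * x = c := ⟨_, rfl⟩
  obtain ⟨n238, t846⟩ : ∃ c, n237 * g = c := ⟨_, rfl⟩
  obtain ⟨n218, t773⟩ : ∃ c, n103 * g = c := ⟨_, rfl⟩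
  obtain ⟨n219, t776⟩ : ∃ b, n28 * b = n218 := ⟨_, Lp.mul_ldiv _ _⟩
  have t779 : x * n219 = n168 := ufr hU (rt t562 ((m53.symm).trans (m1)) rfl rfl) (rt t93 rfl rfl (m53)) (rt t193 rfl (m1) rfl) (rt t363 rfl rfl (m41.symm)) t30 (rt t69 rfl rfl (m5.symm)) t773 t776 t599
  have m77 : n169 = n219 := mb t602 t779 rfl rfl
  have t847 : (1 : Q) * n238 = n238 := Lp.one_mul' _
  obtain ⟨n109, t384⟩ : ∃ c, n103 * x = c := ⟨_, rfl⟩
  have t521 : n31 * n146 = n56 := ufr hU (rt t326 rfl ((m32.symm).trans (m0.symm)) rfl) (rt t276 rfl rfl (m28.trans (m33.symm))) (rt t276 rfl (m1) rfl) (rt t326 rfl ((m32.symm).trans (m0.symm)) (m33.trans (m28.symm))) (rt t301 (m31.symm) (m1) rfl) (rt t353 rfl ((m38.symm).trans (m0.symm)) (m39.trans (m30.symm))) (rt t301 (m31.symm) rfl rfl) t518 t193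
  have t579 : n28 * n146 = n109 := ufr hU (rt t353 rfl ((m38.symm).trans (m0.symm)) rfl) (rt t301 (m31.symm) rfl (m30.trans (m39.symm))) (rt t301 (m31.symm) (m1) rfl) (rt t353 rfl ((m38.symm).trans (m0.symm)) (m39.trans (m30.symm))) (rt t193 rfl (m1) rfl) (rt t363 rfl rfl (m41.symm)) t193 t521 (rt t384 rfl (m1.symm) rfl)
  have t519 : (1 : Q) * n146 = n146 := Lp.one_mul' _
  have t849 : (1 : Q) * n219 = n238 := ufr hU (rt t561 rfl ((m53.symm).trans (m1)) rfl) (rt t93 rfl rfl (m53)) t579 t384 t519 t843 t773 t776 t846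
  have m86 : n238 = n219 := mb t847 t849 rfl rfl
  have m87 : n221 = n237 := ma t784 t846 rfl (m77.trans (m86.symm))
  obtain ⟨n477, t1674⟩ : ∃ a, a * G = n48 := ⟨_, Lp.div_mul' _ _⟩
  have t1675 : (1 : Q) * n477 = n477 := Lp.one_mul' _
  obtain ⟨n478, t1677⟩ : ∃ b, G * b = n476 := ⟨_, Lp.mul_ldiv _ _⟩
  have t163 : (1 : Q) * n48 = n48 := Lp.one_mul' _
  have t1673 : n476 * (1 : Q) = n476 := Lp.mul_one' _
  have t1676 : n477 * (1 : Q) = n477 := Lp.mul_one' _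
  have t1680 : (1 : Q) * n478 = n477 := ufr hU t127 (rt t126 (m13) rfl rfl) t1668 t1671 t163 t1674 t1673 t1677 t1676
  have m162 : n477 = n478 := mb t1675 t1680 rfl rfl
  have t147 : n43 * (1 : Q) = n43 := Lp.mul_one' _
  have t178 : n52 * (1 : Q) = n52 := Lp.mul_one' _
  have t434 : G * n122 = n52 := ufr hU t148 t147 t147 t148 (rt t126 (m13) rfl rfl) t176 (rt t126 (m13) rfl rfl) t431 t178
  have m207 : n478 = n122 := mb t1677 t434 rfl ((m200.symm).trans (m198.trans (m206.symm)))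
  have m208 : n48 = n450 := mc t1674 t1583 (m162.trans (m207)) rfl
  have m209 : n146 = n454 := mc t843 t1595 ((m87.symm).trans (m107.trans ((m198.symm).trans (m208)))) rfl
  have t1596 : (1 : Q) * n454 = n454 := Lp.one_mul' _
  obtain ⟨n451, t1586⟩ : ∃ c, X * n450 = c := ⟨_, rfl⟩
  obtain ⟨n452, t1589⟩ : ∃ c, n451 * x = c := ⟨_, rfl⟩
  obtain ⟨n453, t1592⟩ : ∃ b, X * b = n452 := ⟨_, Lp.mul_ldiv _ _⟩
  have t1588 : n451 * (1 : Q) = n451 := Lp.mul_one' _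
  have t1584 : (1 : Q) * n450 = n450 := Lp.one_mul' _
  have t1585 : n450 * (1 : Q) = n450 := Lp.mul_one' _
  have t1598 : (1 : Q) * n453 = n454 := ufr hU t790 (rt t6 rfl rfl (m78.symm)) t1586 t1588 t1584 t1585 t1589 t1592 t1595
  have m158 : n454 = n453 := mb t1596 t1598 rfl rfl
  obtain ⟨n123, t435⟩ : ∃ a, a * x = G := ⟨_, Lp.div_mul' _ _⟩
  obtain ⟨n124, t438⟩ : ∃ b, n123 * b = n44 := ⟨_, Lp.mul_ldiv _ _⟩
  obtain ⟨n441, t1553⟩ : ∃ c, X * n124 = c := ⟨_, rfl⟩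
  obtain ⟨n442, t1556⟩ : ∃ a, a * x = n441 := ⟨_, Lp.div_mul' _ _⟩
  obtain ⟨n339, t1200⟩ : ∃ c, n279 * n53 = c := ⟨_, rfl⟩
  obtain ⟨n413, t1457⟩ : ∃ c, n339 * n280 = c := ⟨_, rfl⟩
  obtain ⟨n443, t1559⟩ : ∃ c, n442 * g = c := ⟨_, rfl⟩
  have t1202 : n339 * (1 : Q) = n339 := Lp.mul_one' _
  have t1460 : n38 * x = n413 := ufr hU (rt t990 (m102.symm) rfl rfl) t991 t179 t126 (rt t1200 (m102.symm) rfl rfl) t1202 (rt t12 (m13.symm) (m101) rfl) t6 t1457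
  have m146 : n77 = n413 := mc t266 t1460 rfl rfl
  obtain ⟨n125, t441⟩ : ∃ c, n111 * x = c := ⟨_, rfl⟩
  have t393 : n111 * (1 : Q) = n111 := Lp.mul_one' _
  have t444 : G * n124 = n125 := ufr hU (rt t126 (m13) rfl rfl) (rt t435 rfl rfl (m13.symm)) t435 (rt t126 rfl rfl (m13)) t149 (rt t393 rfl rfl ((m44.symm).trans (m26.symm))) (rt t149 (m13.symm) rfl rfl) t438 t441
  have t1562 : X * n78 = n443 := ufr hU t6 t12 t444 t441 t1553 t1556 (rt t1112 (m26.trans (m44)) rfl rfl) (rt t1255 rfl rfl ((m129.symm).trans (m115))) t1559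
  have m153 : n136 = n443 := mc t484 t1562 rfl rfl
  have m154 : n339 = n442 := ma t1457 t1559 (m101.symm) ((m146.symm).trans (m47.trans (m153)))
  obtain ⟨n340, t1203⟩ : ∃ b, X * b = n339 := ⟨_, Lp.mul_ldiv _ _⟩
  have t1206 : G * n340 = n54 := ufr hU (rt t126 (m13) rfl rfl) t179 (rt t991 rfl (m101.symm) rfl) t990 t12 (rt t790 rfl rfl (m78)) t1200 t1203 t185
  have m212 : n48 = n340 := mb t1668 t1206 rfl (m210)
  have m213 : n451 = n339 := mc t1586 t1203 rfl ((m208.symm).trans (m212))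
  have m214 : n441 = n452 := mc t1556 t1589 ((m154.symm).trans (m213.symm)) rfl
  have m215 : n453 = n124 := mb t1592 t1553 rfl (m214.symm)
  have t1426 : (1 : Q) * n404 = n404 := Lp.one_mul' _
  have t1420 : (1 : Q) * n402 = n402 := Lp.one_mul' _
  have t1428 : (1 : Q) * n124 = n404 := ufr hU (rt t1009 rfl ((m105.symm).trans (m96.symm)) rfl) t1011 t1419 (rt t1416 rfl ((m105.symm).trans (m96.symm)) rfl) t1420 t1422 (rt t441 ((m44.symm).trans ((m26.symm).trans (m96.trans (m105)))) ((m1.symm).trans (m53.trans (m104))) rfl) t444 t1425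
  have m144 : n404 = n124 := mb t1426 t1428 rfl rfl
  have m216 : n237 = n403 := ma t843 t1425 ((m1.symm).trans (m53.trans (m104))) (m209.trans (m158.trans (m215.trans (m144.symm))))
  obtain ⟨n330, t1168⟩ : ∃ c, n42 * n227 = c := ⟨_, rfl⟩
  have t1169 : (1 : Q) * n330 = n330 := Lp.one_mul' _
  obtain ⟨n327, t1159⟩ : ∃ c, n62 * n42 = c := ⟨_, rfl⟩
  obtain ⟨n328, t1162⟩ : ∃ c, n327 * n227 = c := ⟨_, rfl⟩
  obtain ⟨n329, t1165⟩ : ∃ b, n62 * b = n328 := ⟨_, Lp.mul_ldiv _ _⟩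
  have t1161 : n327 * (1 : Q) = n327 := Lp.mul_one' _
  have t1171 : (1 : Q) * n329 = n330 := ufr hU t790 t805 t1159 t1161 t143 t144 t1162 t1165 t1168
  have m124 : n330 = n329 := mb t1169 t1171 rfl rfl
  obtain ⟨n415, t1464⟩ : ∃ b, n62 * b = n301 := ⟨_, Lp.mul_ldiv _ _⟩
  have m189 : n228 = n327 := mc t809 t1159 rfl (m183)
  have m195 : n301 = n328 := mc t1064 t1162 ((m13.symm).trans (m194.trans ((m123.symm).trans (m189)))) (m108.symm)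
  have m196 : n415 = n329 := mb t1464 t1165 rfl (m195)
  obtain ⟨n414, t1461⟩ : ∃ a, a * n344 = n301 := ⟨_, Lp.div_mul' _ _⟩
  obtain ⟨n416, t1467⟩ : ∃ c, n414 * n300 = c := ⟨_, rfl⟩
  have t1468 : (1 : Q) * n416 = n416 := Lp.one_mul' _
  have t1219 : (1 : Q) * n344 = n344 := Lp.one_mul' _
  have t1470 : (1 : Q) * n415 = n416 := ufr hU t1219 t1218 (rt t1218 rfl (m111.symm) rfl) t1219 (rt t1228 rfl ((m126.symm).trans (m111.symm)) rfl) t1461 (rt t1228 rfl (m126.symm) rfl) t1464 t1467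
  have m147 : n416 = n415 := mb t1468 t1470 rfl rfl
  obtain ⟨n463, t1628⟩ : ∃ c, X * n344 = c := ⟨_, rfl⟩
  obtain ⟨n332, t1175⟩ : ∃ c, n301 * n33 = c := ⟨_, rfl⟩
  obtain ⟨n176, t627⟩ : ∃ c, X * n33 = c := ⟨_, rfl⟩
  obtain ⟨n249, t887⟩ : ∃ c, G * n176 = c := ⟨_, rfl⟩
  obtain ⟨n250, t890⟩ : ∃ a, a * n33 = n249 := ⟨_, Lp.div_mul' _ _⟩
  obtain ⟨n333, t1178⟩ : ∃ b, G * b = n332 := ⟨_, Lp.mul_ldiv _ _⟩
  obtain ⟨n331, t1172⟩ : ∃ c, X * n61 = c := ⟨_, rfl⟩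
  obtain ⟨n334, t1181⟩ : ∃ c, n331 * n33 = c := ⟨_, rfl⟩
  have t1066 : n301 * (1 : Q) = n301 := Lp.mul_one' _
  have t1174 : n331 * (1 : Q) = n331 := Lp.mul_one' _
  have t1184 : X * n333 = n334 := ufr hU (rt t754 rfl ((m32.symm).trans (m0.symm)) rfl) (rt t111 rfl rfl (m71.symm)) t1064 t1066 t1172 t1174 t1175 t1178 t1181
  obtain ⟨n177, t630⟩ : ∃ c, X * n176 = c := ⟨_, rfl⟩
  obtain ⟨n262, t932⟩ : ∃ c, X * n50 = c := ⟨_, rfl⟩
  obtain ⟨n265, t941⟩ : ∃ a, a * n51 = n262 := ⟨_, Lp.div_mul' _ _⟩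
  obtain ⟨n263, t935⟩ : ∃ a, a * n262 = n50 := ⟨_, Lp.div_mul' _ _⟩
  obtain ⟨n264, t938⟩ : ∃ b, n263 * b = n32 := ⟨_, Lp.mul_ldiv _ _⟩
  obtain ⟨n268, t950⟩ : ∃ c, n265 * n264 = c := ⟨_, rfl⟩
  obtain ⟨n396, t1399⟩ : ∃ c, n331 * n220 = c := ⟨_, rfl⟩
  obtain ⟨n397, t1402⟩ : ∃ b, X * b = n396 := ⟨_, Lp.mul_ldiv _ _⟩
  obtain ⟨n398, t1405⟩ : ∃ c, n209 * n220 = c := ⟨_, rfl⟩
  obtain ⟨n347, t1229⟩ : ∃ c, n331 * n212 = c := ⟨_, rfl⟩
  have t1232 : X * n214 = n347 := ufr hU (rt t754 rfl ((m32.symm).trans (m0.symm)) rfl) t752 (rt t808 rfl (m108) rfl) t804 t1172 t1174 (rt t839 ((m108.symm).trans (m80.symm)) (m71.symm) rfl) t842 t1229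
  have t1408 : n51 * n397 = n398 := ufr hU (rt t1147 rfl (m71) rfl) (rt t783 rfl rfl (m120)) t1232 (rt t1229 rfl (m71) rfl) t765 t762 t1399 t1402 t1405
  obtain ⟨n178, t633⟩ : ∃ a, a * n177 = n176 := ⟨_, Lp.div_mul' _ _⟩
  obtain ⟨n179, t636⟩ : ∃ c, n178 * n176 = c := ⟨_, rfl⟩
  obtain ⟨n184, t654⟩ : ∃ c, n179 * n32 = c := ⟨_, rfl⟩
  have t638 : n179 * (1 : Q) = n179 := Lp.mul_one' _
  have t637 : (1 : Q) * n179 = n179 := Lp.one_mul' _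
  have t631 : (1 : Q) * n177 = n177 := Lp.one_mul' _
  have t628 : (1 : Q) * n176 = n176 := Lp.one_mul' _
  have t639 : (1 : Q) * n33 = n179 := ufr hU t631 t630 t630 t631 t628 t633 t628 t627 t636
  have m60 : n179 = n33 := mb t637 t639 rfl rfl
  have t652 : (1 : Q) * n183 = n183 := Lp.one_mul' _
  have t657 : n32 * n183 = n184 := ufr hU t110 t109 t4 t5 t114 (rt t638 rfl rfl (m60.trans (m12.symm))) t651 t652 t654
  have m178 : n184 = n398 := mc t654 t1405 (m60.trans ((m12.symm).trans (m75.symm))) (m73.trans (m177.symm))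
  have m179 : n397 = n183 := mb t1408 t657 (m73.symm) (m178.symm)
  have m180 : n262 = n396 := mc t932 t1402 rfl (m74.trans (m179.symm))
  have m181 : n265 = n331 := ma t941 t1399 (m177.symm) (m180)
  obtain ⟨n233, t826⟩ : ∃ c, n178 * n33 = c := ⟨_, rfl⟩
  have m223 : n176 = n262 := mc t627 t932 rfl ((m12.symm).trans ((m75.symm).trans ((m219.symm).trans (m74.symm))))
  have m230 : n263 = n178 := ma t935 t636 (m223.symm) (m74.trans (m219.trans (m75.trans (m12.trans (m60.symm)))))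
  have t827 : (1 : Q) * n233 = n233 := Lp.one_mul' _
  have t829 : (1 : Q) * n220 = n233 := ufr hU t628 t627 t627 t628 (rt t742 rfl (m75.trans (m12)) rfl) (rt t636 rfl rfl (m60.trans ((m12.symm).trans (m75.symm)))) (rt t742 rfl (m75.trans (m12)) rfl) t783 t826
  have m82 : n233 = n220 := mb t827 t829 rfl rfl
  have m231 : n33 = n264 := mb t826 t938 (m230.symm) (m82.trans (m177.trans (m73.symm)))
  have m232 : n334 = n268 := mc t1181 t950 (m181.symm) (m231)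
  have t951 : (1 : Q) * n268 = n268 := Lp.one_mul' _
  obtain ⟨n266, t944⟩ : ∃ c, X * n264 = c := ⟨_, rfl⟩
  obtain ⟨n267, t947⟩ : ∃ b, n263 * b = n266 := ⟨_, Lp.mul_ldiv _ _⟩
  have t933 : (1 : Q) * n262 = n262 := Lp.one_mul' _
  have t953 : (1 : Q) * n267 = n268 := ufr hU (rt t109 rfl (m73) rfl) t938 t935 (rt t651 rfl (m73) (m74.symm)) t933 t941 t944 t947 t950
  have m97 : n268 = n267 := mb t951 t953 rfl rfl
  have m233 : n176 = n266 := mc t627 t944 rfl (m231)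
  have m234 : n177 = n267 := mb t633 t947 (m230.symm) (m233)
  have m241 : n333 = n176 := mb t1184 t630 rfl (m232.trans (m97.trans (m234.symm)))
  have m242 : n249 = n332 := mc t887 t1178 rfl (m241.symm)
  have m243 : n301 = n250 := ma t1175 t890 rfl (m242.symm)
  obtain ⟨n251, t893⟩ : ∃ c, n250 * n212 = c := ⟨_, rfl⟩
  obtain ⟨n465, t1634⟩ : ∃ c, n463 * n212 = c := ⟨_, rfl⟩
  have t79 : (1 : Q) * n24 = n24 := Lp.one_mul' _
  have t896 : G * n24 = n251 := ufr hU t111 (rt t752 rfl rfl (m71)) t628 t627 t887 t890 (rt t81 rfl (m71.symm) rfl) t79 t893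
  obtain ⟨n431, t1520⟩ : ∃ c, X * n36 = c := ⟨_, rfl⟩
  obtain ⟨n432, t1523⟩ : ∃ c, n431 * n13 = c := ⟨_, rfl⟩
  have t183 : (1 : Q) * n54 = n54 := Lp.one_mul' _
  have m17 : n54 = n53 := mb t183 t185 rfl rfl
  have m217 : n431 = n37 := mc t1520 t179 rfl ((m16.symm).trans (m197.trans (m199.trans (m210.trans (m17)))))
  have m218 : n251 = n432 := mc t896 t1523 ((m13.symm).trans (m217.symm)) ((m7.symm).trans (m2))
  obtain ⟨n378, t1337⟩ : ∃ c, n290 * n13 = c := ⟨_, rfl⟩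
  obtain ⟨n379, t1340⟩ : ∃ b, x * b = n378 := ⟨_, Lp.mul_ldiv _ _⟩
  have t1522 : n431 * (1 : Q) = n431 := Lp.mul_one' _
  have t1526 : X * n379 = n432 := ufr hU (rt t754 rfl ((m32.symm).trans (m0.symm)) rfl) (rt t40 rfl rfl (m71.symm)) (rt t1029 rfl ((m109.symm).trans (m16)) rfl) t1028 t1520 t1522 t1337 t1340 t1523
  obtain ⟨n464, t1631⟩ : ∃ c, n344 * n212 = c := ⟨_, rfl⟩
  have t1220 : n344 * (1 : Q) = n344 := Lp.mul_one' _
  have t1630 : n463 * (1 : Q) = n463 := Lp.mul_one' _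
  have t1632 : (1 : Q) * n464 = n464 := Lp.one_mul' _
  have t1637 : X * n464 = n465 := ufr hU (rt t754 rfl ((m32.symm).trans (m0.symm)) rfl) t752 t1219 t1220 t1628 t1630 t1631 t1632 t1634
  obtain ⟨n380, t1343⟩ : ∃ c, n36 * n13 = c := ⟨_, rfl⟩
  have t1344 : (1 : Q) * n380 = n380 := Lp.one_mul' _
  have t1346 : (1 : Q) * n379 = n380 := ufr hU (rt t752 rfl (m71) rfl) (rt t40 rfl rfl (m71.symm)) t57 t1026 t127 t124 t1337 t1340 t1343
  have m136 : n380 = n379 := mb t1344 t1346 rfl rfl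
  obtain ⟨n436, t1537⟩ : ∃ c, n36 * n176 = c := ⟨_, rfl⟩
  obtain ⟨n439, t1546⟩ : ∃ c, X * n436 = c := ⟨_, rfl⟩
  obtain ⟨n437, t1540⟩ : ∃ c, n36 * n177 = c := ⟨_, rfl⟩
  obtain ⟨n438, t1543⟩ : ∃ a, a * n176 = n437 := ⟨_, Lp.div_mul' _ _⟩
  obtain ⟨n440, t1549⟩ : ∃ c, n438 * n436 = c := ⟨_, rfl⟩
  have t1538 : (1 : Q) * n436 = n436 := Lp.one_mul' _
  have t1547 : (1 : Q) * n439 = n439 := Lp.one_mul' _
  have t1552 : n36 * n439 = n440 := ufr hU t1537 t1538 t631 t630 t1540 t1543 t1546 t1547 t1549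
  obtain ⟨n104, t366⟩ : ∃ b, n36 * b = X := ⟨_, Lp.mul_ldiv _ _⟩
  obtain ⟨n105, t369⟩ : ∃ c, n50 * X = c := ⟨_, rfl⟩
  have t370 : (1 : Q) * n105 = n105 := Lp.one_mul' _
  have t372 : (1 : Q) * n104 = n105 := ufr hU t127 t124 t124 t127 t4 t169 t4 t366 t369
  have m43 : n105 = n104 := mb t370 t372 rfl rfl
  obtain ⟨n460, t1618⟩ : ∃ a, a * X = n262 := ⟨_, Lp.div_mul' _ _⟩
  obtain ⟨n462, t1624⟩ : ∃ b, X * b = n460 := ⟨_, Lp.mul_ldiv _ _⟩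
  obtain ⟨n461, t1621⟩ : ∃ a, a * X = n183 := ⟨_, Lp.div_mul' _ _⟩
  have m220 : n51 = n461 := ma t1147 t1621 (m71) ((m120.symm).trans (m219.symm))
  have t1622 : (1 : Q) * n461 = n461 := Lp.one_mul' _
  have t1620 : n460 * (1 : Q) = n460 := Lp.mul_one' _
  have t1623 : n461 * (1 : Q) = n461 := Lp.mul_one' _
  have t1627 : (1 : Q) * n462 = n461 := ufr hU (rt t752 rfl (m71) rfl) t754 t932 t1618 (rt t652 rfl (m74.symm) rfl) t1621 (rt t1620 rfl (m0.trans (m32)) rfl) t1624 (rt t1623 rfl (m0.trans (m32)) rfl)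
  have m160 : n461 = n462 := mb t1622 t1627 rfl rfl
  have m221 : n183 = n460 := mc t651 t1624 rfl (m73.trans (m220.trans (m160)))
  have m222 : n105 = n262 := mc t369 t1618 (m74.trans (m221)) rfl
  have m224 : X = n436 := mc t366 t1537 rfl ((m43.symm).trans (m222.trans (m223.symm)))
  have m228 : n24 = n439 := mc t81 t1546 rfl (m224)
  have m229 : n380 = n440 := mc t1343 t1552 rfl ((m2.symm).trans (m7.trans (m228)))
  obtain ⟨n258, t918⟩ : ∃ a, a * n33 = n177 := ⟨_, Lp.div_mul' _ _⟩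
  obtain ⟨n466, t1638⟩ : ∃ b, X * b = n436 := ⟨_, Lp.mul_ldiv _ _⟩
  obtain ⟨n467, t1641⟩ : ∃ c, n258 * n466 = c := ⟨_, rfl⟩
  obtain ⟨n468, t1644⟩ : ∃ b, X * b = n467 := ⟨_, Lp.mul_ldiv _ _⟩
  obtain ⟨n469, t1647⟩ : ∃ c, n438 * n466 = c := ⟨_, rfl⟩
  obtain ⟨n259, t921⟩ : ∃ c, n258 * n176 = c := ⟨_, rfl⟩
  have t924 : X * n177 = n259 := ufr hU t627 t628 t628 t627 t630 t918 t630 t631 t921
  have t1650 : n36 * n468 = n469 := ufr hU t1537 t1638 t924 t921 t1540 t1543 t1641 t1644 t1647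
  have m169 : n331 = n112 := mc t1172 t1456 rfl (m168)
  have m235 : n331 = n258 := ma t1181 t918 rfl (m232.trans (m97.trans (m234.symm)))
  have t1643 : n467 * (1 : Q) = n467 := Lp.mul_one' _
  have t1539 : n436 * (1 : Q) = n436 := Lp.mul_one' _
  have m225 : (1 : Q) = n466 := mb t1539 t1638 (m224.symm) rfl
  have m227 : n467 = n258 := ma t1643 t1641 (m225) rfl
  have m236 : n412 = n468 := mb t1456 t1644 rfl ((m169.symm).trans (m235.trans (m227.symm)))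
  have m237 : n345 = n469 := mc t1222 t1650 ((m197.symm).trans (m16)) (m108.trans (m168.trans (m236)))
  have t1649 : n469 * (1 : Q) = n469 := Lp.mul_one' _
  have m226 : n469 = n438 := ma t1649 t1647 (m225) rfl
  have m238 : n464 = n440 := mc t1631 t1549 (m127.trans (m237.trans (m226))) (m71.trans (m224))
  have m239 : n432 = n465 := mc t1526 t1637 rfl ((m136.symm).trans (m229.trans (m238.symm)))
  have m240 : n250 = n463 := ma t893 t1634 rfl (m218.trans (m239))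
  have m244 : n414 = X := ma t1461 t1628 rfl (m243.trans (m240))
  have m245 : n371 = n416 := mc t1314 t1467 (m244.symm) (m111)
  have m246 : n42 = n372 := ma t1168 t1317 (m108) (m124.trans ((m196.symm).trans ((m147.symm).trans (m245.symm))))
  have m247 : n75 = n373 := mc t259 t1320 (m246) rfl
  have m248 : n76 = n374 := mb t262 t1323 rfl (m247)
  have m250 : n402 = n375 := mc t1422 t1329 ((m216.symm).trans ((m87.symm).trans (m107))) (m26.trans (m248))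
  have m251 : n370 = n401 := mc t1313 t1419 rfl ((m132.symm).trans ((m211.symm).trans (m250.symm)))
  have m252 : n405 = n284 := ma t1429 t1310 rfl (m251.symm)
  have m253 : n186 = n406 := mb t1117 t1432 rfl (m117.trans (m252.symm))
  have m265 : n281 = n137 := mc t995 t1435 rfl ((m92.symm).trans (m253))
  obtain ⟨n96, t335⟩ : ∃ b, x * b = n93 := ⟨_, Lp.mul_ldiv _ _⟩
  have t275 : n79 * (1 : Q) = n79 := Lp.mul_one' _
  have t338 : (1 : Q) * n96 = n79 := ufr hU (rt t34 rfl (m1) rfl) t36 t107 (rt t301 rfl (m1) (m30)) (rt t324 rfl (m33) rfl) (rt t276 rfl (m1) (m28.trans (m33.symm))) (rt t326 (m31) (m32.symm) rfl) t335 (rt t275 rfl (m0) rfl)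
  have t274 : (1 : Q) * n79 = n79 := Lp.one_mul' _
  have m35 : n79 = n96 := mb t274 t338 rfl rfl
  have t337 : n96 * (1 : Q) = n96 := Lp.mul_one' _
  have t529 : n31 * n96 = n148 := ufr hU (rt t301 (m31.symm) (m1) rfl) (rt t107 rfl rfl (m30.symm)) (rt t356 rfl ((m38.symm).trans (m0.symm)) rfl) (rt t34 rfl (m1) rfl) (rt t326 rfl ((m32.symm).trans (m0.symm)) rfl) (rt t276 rfl (m1) (m28.trans (m33.symm))) (rt t324 rfl (m33) rfl) t335 t526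
  have t1132 : n31 * n274 = n319 := ufr hU (rt t663 (m92) rfl rfl) t662 (rt t338 rfl (m35.symm) rfl) (rt t337 rfl rfl (m35.symm)) (rt t529 rfl (m35.symm) rfl) (rt t973 rfl rfl (m98.symm)) (rt t974 (m35) (m92.symm) rfl) t972 t1129
  have t486 : (1 : Q) * n137 = n137 := Lp.one_mul' _
  have t1103 : (1 : Q) * n312 = n312 := Lp.one_mul' _
  obtain ⟨n459, t1614⟩ : ∃ c, n312 * n286 = c := ⟨_, rfl⟩
  have m278 : n87 = n459 := mc t301 t1614 ((m31.symm).trans ((m90.symm).trans (m277))) (m53.trans (m104))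
  have t1694 : (1 : Q) * n482 = n482 := Lp.one_mul' _
  have t1696 : n79 * n482 = n92 := ufr hU (rt t276 rfl (m1) rfl) (rt t1103 rfl rfl ((m277.symm).trans (m90.trans (m28.symm)))) (rt t1428 rfl ((m215.symm).trans ((m158.symm).trans (m209.symm))) rfl) (rt t1425 rfl ((m104.symm).trans ((m53.symm).trans (m1))) rfl) t518 (rt t1614 rfl ((m104.symm).trans ((m53.symm).trans (m1))) (m278.symm)) t1693 t1694 (rt t320 ((m90.symm).trans (m277)) ((m90.symm).trans (m277)) rfl)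
  have t1703 : (1 : Q) * n482 = n484 := ufr hU (rt t972 rfl (m98.symm) rfl) t974 (rt t1133 rfl (m265) rfl) (rt t1132 rfl (m98.symm) rfl) t486 t1697 t320 t1696 t1700
  have m285 : n484 = n482 := mb t1701 t1703 rfl rfl
  have m286 : n403 = n483 := ma t1693 t1700 ((m277.symm).trans (m90)) (m285.symm)
  obtain ⟨n155, t550⟩ : ∃ b, p * b = n93 := ⟨_, Lp.mul_ldiv _ _⟩
  have t527 : (1 : Q) * n148 = n148 := Lp.one_mul' _
  have t553 : (1 : Q) * n155 = n148 := ufr hU (rt t34 rfl (m1) rfl) t103 t103 (rt t34 rfl (m1) rfl) (rt t324 rfl (m33) rfl) (rt t276 rfl (m1) (m28.trans (m33.symm))) (rt t324 rfl (m33) rfl) t550 t526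
  have m52 : n148 = n155 := mb t527 t553 rfl rfl
  obtain ⟨n72, t248⟩ : ∃ c, n18 * n11 = c := ⟨_, rfl⟩
  obtain ⟨n361, t1276⟩ : ∃ c, n45 * n72 = c := ⟨_, rfl⟩
  obtain ⟨n362, t1279⟩ : ∃ a, a * n44 = n361 := ⟨_, Lp.div_mul' _ _⟩
  obtain ⟨n480, t1685⟩ : ∃ b, n362 * b = n11 := ⟨_, Lp.mul_ldiv _ _⟩
  have t1436 : n172 * n76 = n366 := ufr hU t616 t1188 t931 t928 t613 t260 t1185 t262 t1297
  have m249 : n172 = n62 := ma t1436 t1329 (m248) (m211.symm)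
  obtain ⟨n190, t676⟩ : ∃ c, n28 * n85 = c := ⟨_, rfl⟩
  obtain ⟨n191, t679⟩ : ∃ a, a * g = n190 := ⟨_, Lp.div_mul' _ _⟩
  obtain ⟨n254, t904⟩ : ∃ b, n191 * b = n56 := ⟨_, Lp.mul_ldiv _ _⟩
  obtain ⟨n364, t1286⟩ : ∃ c, n237 * n254 = c := ⟨_, rfl⟩
  obtain ⟨n192, t682⟩ : ∃ c, n191 * n158 = c := ⟨_, rfl⟩
  have t685 : n28 * n167 = n192 := ufr hU t93 (rt t561 rfl rfl (m53.symm)) t296 t298 t676 t679 (rt t301 rfl (m53) rfl) t598 t682
  have m63 : n107 = n192 := mc t377 t685 rfl ((m39.symm).trans (m57))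
  have t907 : n28 * n254 = n10 := ufr hU t377 (rt t682 rfl rfl (m63.symm)) (rt t682 rfl ((m53.symm).trans (m1)) rfl) (rt t377 rfl rfl (m63)) (rt t193 rfl (m1) rfl) (rt t364 rfl (m10.symm) (m41.symm)) (rt t193 rfl (m53) rfl) t904 (rt t30 rfl ((m1.symm).trans (m53)) rfl)
  obtain ⟨n455, t1600⟩ : ∃ c, x * n406 = c := ⟨_, rfl⟩
  obtain ⟨n456, t1603⟩ : ∃ c, n455 * n46 = c := ⟨_, rfl⟩
  have m254 : n28 = n455 := mc t107 t1600 rfl ((m92.symm).trans (m253))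
  have t1602 : n455 * (1 : Q) = n455 := Lp.mul_one' _
  have t1606 : x * n286 = n456 := ufr hU (rt t1013 ((m104.symm).trans ((m53.symm).trans (m1))) rfl rfl) (rt t155 rfl rfl (m53.trans (m104))) t1435 t487 t1600 t1602 t485 (rt t1011 rfl rfl ((m105.symm).trans (m96.symm))) t1603
  have m159 : n10 = n456 := mc t30 t1606 rfl ((m1.symm).trans (m53.trans (m104)))
  have m255 : n254 = n46 := mb t907 t1603 (m254) (m159)
  obtain ⟨n363, t1282⟩ : ∃ c, n362 * n286 = c := ⟨_, rfl⟩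
  have t249 : (1 : Q) * n72 = n72 := Lp.one_mul' _
  have t251 : x * n44 = n72 := ufr hU (rt t36 rfl (m0.symm) rfl) t34 t127 t126 t57 t59 (rt t149 (m13.symm) (m1.symm) rfl) t150 t248
  have t1285 : n45 * n21 = n363 := ufr hU t152 t1014 t249 t251 t1276 t1279 (rt t30 rfl ((m1.symm).trans (m53.trans (m104))) rfl) t70 t1282
  obtain ⟨n293, t1038⟩ : ∃ a, a * x = n254 := ⟨_, Lp.div_mul' _ _⟩
  obtain ⟨n324, t1148⟩ : ∃ a, a * n56 = n146 := ⟨_, Lp.div_mul' _ _⟩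
  obtain ⟨n325, t1151⟩ : ∃ c, n324 * n11 = c := ⟨_, rfl⟩
  have t1152 : (1 : Q) * n325 = n325 := Lp.one_mul' _
  have t362 : (1 : Q) * n103 = n103 := Lp.one_mul' _
  obtain ⟨n102, t357⟩ : ∃ b, n25 * b = n11 := ⟨_, Lp.mul_ldiv _ _⟩
  have t387 : x * n102 = n109 := ufr hU (rt t85 rfl (m8.symm) rfl) t82 (rt t206 (m18.trans (m8.symm)) rfl rfl) (rt t207 rfl (m8.symm) rfl) (rt t356 rfl ((m38.symm).trans (m0.symm)) rfl) t361 (rt t34 rfl (m1) rfl) t357 t384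
  have t191 : (1 : Q) * n56 = n56 := Lp.one_mul' _
  have t360 : (1 : Q) * n102 = n56 := ufr hU t247 (rt t82 rfl rfl (m23.symm)) t82 (rt t247 rfl rfl (m23)) (rt t34 rfl (m1) rfl) t93 (rt t34 rfl (m1) rfl) t357 (rt t193 rfl (m1) rfl)
  have m40 : n56 = n102 := mb t191 t360 rfl rfl
  have t1154 : (1 : Q) * n254 = n325 := ufr hU (rt t362 rfl (m41.symm) rfl) (rt t193 rfl rfl (m41)) t579 (rt t387 rfl (m40.symm) rfl) t519 t1148 (rt t30 rfl (m1.symm) rfl) t907 t1151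
  have m121 : n325 = n254 := mb t1152 t1154 rfl rfl
  have m122 : n293 = n324 := ma t1038 t1151 (m1.symm) (m121.symm)
  have t1289 : n293 * n21 = n364 := ufr hU (rt t1151 (m122.symm) (m1) rfl) t1154 (rt t362 rfl (m41.symm) rfl) (rt t193 rfl (m1) (m41)) (rt t1148 (m122.symm) rfl rfl) t843 t907 t70 t1286
  have t159 : (1 : Q) * n47 = n47 := Lp.one_mul' _
  have m15 : n47 = n46 := mb t159 t161 rfl rfl
  have m256 : n45 = n293 := ma t158 t1038 rfl (m15.trans (m255.symm))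
  have m257 : n363 = n364 := mc t1285 t1289 (m256) rfl
  obtain ⟨n295, t1045⟩ : ∃ c, g * n293 = c := ⟨_, rfl⟩
  obtain ⟨n297, t1051⟩ : ∃ c, n295 * n29 = c := ⟨_, rfl⟩
  obtain ⟨n298, t1054⟩ : ∃ b, g * b = n297 := ⟨_, Lp.mul_ldiv _ _⟩
  have t1055 : (1 : Q) * n298 = n298 := Lp.one_mul' _
  obtain ⟨n470, t1651⟩ : ∃ c, g * n45 = c := ⟨_, rfl⟩
  have m258 : n470 = n295 := mc t1651 t1045 rfl (m256)
  obtain ⟨n472, t1657⟩ : ∃ c, n470 * n280 = c := ⟨_, rfl⟩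
  obtain ⟨n180, t640⟩ : ∃ c, n139 * g = c := ⟨_, rfl⟩
  obtain ⟨n132, t467⟩ : ∃ b, n88 * b = n11 := ⟨_, Lp.mul_ldiv _ _⟩
  obtain ⟨n147, t522⟩ : ∃ c, n28 * n97 = c := ⟨_, rfl⟩
  have t525 : n88 * n100 = n147 := ufr hU (rt t341 (m36.symm) rfl rfl) (rt t342 rfl rfl (m36)) t247 t246 (rt t350 (m36.symm) rfl rfl) (rt t353 rfl ((m38.symm).trans (m0.symm)) rfl) (rt t339 (m23.symm) rfl rfl) (rt t351 rfl rfl (m39.trans (m30.symm))) t522
  have t643 : g * n132 = n180 := ufr hU (rt t339 rfl (m36.symm) rfl) (rt t350 (m36.symm) rfl (m39.trans (m30.symm))) (rt t525 rfl (m39) rfl) (rt t522 rfl (m36.symm) rfl) (rt t96 rfl (m10.symm) rfl) t492 t93 t467 t640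
  obtain ⟨n471, t1654⟩ : ∃ c, n45 * n280 = c := ⟨_, rfl⟩
  obtain ⟨n447, t1573⟩ : ∃ c, n45 * n75 = c := ⟨_, rfl⟩
  obtain ⟨n448, t1576⟩ : ∃ a, a * n44 = n447 := ⟨_, Lp.div_mul' _ _⟩
  obtain ⟨n449, t1579⟩ : ∃ c, n448 * n286 = c := ⟨_, rfl⟩
  have t1580 : (1 : Q) * n449 = n449 := Lp.one_mul' _
  have t1581 : n449 * (1 : Q) = n449 := Lp.mul_one' _
  have t1582 : n45 * (1 : Q) = n449 := ufr hU t152 t1014 t260 (rt t262 rfl (m26.symm) rfl) t1573 t1576 (rt t6 rfl ((m1.symm).trans (m53.trans (m104))) rfl) (rt t790 rfl rfl (m78)) t1579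
  have m157 : n449 = n45 := ma t1581 t1582 rfl rfl
  have t1653 : n470 * (1 : Q) = n470 := Lp.mul_one' _
  have t1655 : (1 : Q) * n471 = n471 := Lp.one_mul' _
  have t1660 : g * n471 = n472 := ufr hU (rt t993 (m101.symm) rfl rfl) (rt t994 rfl rfl (m101)) (rt t1580 rfl (m157) rfl) t1582 t1651 t1653 t1654 t1655 t1657
  have t470 : n28 * n132 = p := ufr hU (rt t353 rfl ((m38.symm).trans (m0.symm)) rfl) (rt t350 (m36.symm) rfl rfl) (rt t350 (m36.symm) rfl rfl) (rt t353 rfl ((m38.symm).trans (m0.symm)) rfl) t93 (rt t356 rfl ((m38.symm).trans (m0.symm)) rfl) t93 t467 t13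
  have m46 : n130 = n132 := mb t459 t470 rfl rfl
  obtain ⟨n294, t1041⟩ : ∃ c, n293 * g = c := ⟨_, rfl⟩
  have t1042 : (1 : Q) * n294 = n294 := Lp.one_mul' _
  have t905 : (1 : Q) * n254 = n254 := Lp.one_mul' _
  have t1044 : (1 : Q) * n130 = n294 := ufr hU (rt t1014 rfl ((m104.symm).trans ((m53.symm).trans (m1))) rfl) t93 t907 t30 t905 t1038 t13 t459 t1041
  have m110 : n294 = n130 := mb t1042 t1044 rfl rfl
  have m259 : n471 = n294 := mc t1654 t1041 (m256) (m101.symm)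
  have m260 : n180 = n472 := mc t643 t1660 rfl ((m46.symm).trans ((m110.symm).trans (m259.symm)))
  have m261 : n470 = n139 := ma t1657 t640 (m101.symm) (m260.symm)
  have m262 : n297 = n140 := mc t1051 t495 ((m258.symm).trans (m261)) ((m10.symm).trans (m30.symm))
  have m263 : n158 = n298 := mb t563 t1054 rfl (m262.symm)
  obtain ⟨n58, t197⟩ : ∃ b, n18 * b = n11 := ⟨_, Lp.mul_ldiv _ _⟩
  obtain ⟨n57, t194⟩ : ∃ a, a * G = n11 := ⟨_, Lp.div_mul' _ _⟩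
  have t196 : n57 * (1 : Q) = n57 := Lp.mul_one' _
  have t200 : x * n58 = n57 := ufr hU t57 t59 t59 t57 (rt t36 rfl (m0.symm) rfl) t194 (rt t36 rfl (m0.symm) rfl) t197 t196
  obtain ⟨n296, t1048⟩ : ∃ c, x * n293 = c := ⟨_, rfl⟩
  obtain ⟨n299, t1057⟩ : ∃ c, n296 * n29 = c := ⟨_, rfl⟩
  obtain ⟨n128, t452⟩ : ∃ b, n57 * b = n18 := ⟨_, Lp.mul_ldiv _ _⟩
  obtain ⟨n313, t1105⟩ : ∃ c, n312 * G = c := ⟨_, rfl⟩
  have t1100 : (1 : Q) * n311 = n311 := Lp.one_mul' _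
  obtain ⟨n129, t455⟩ : ∃ c, n18 * G = c := ⟨_, rfl⟩
  have t458 : x * n128 = n129 := ufr hU (rt t356 rfl ((m38.symm).trans (m0.symm)) rfl) t194 t194 (rt t356 rfl ((m38.symm).trans (m0.symm)) rfl) t57 t59 t57 t452 t455
  have t1108 : (1 : Q) * n128 = n313 := ufr hU t58 t57 t1099 t1096 t1100 t1102 t455 t458 t1105
  have t1615 : (1 : Q) * n459 = n459 := Lp.one_mul' _
  have t1617 : n57 * n459 = n456 := ufr hU t194 t1014 t1108 t1105 t452 t57 t1614 t1615 t1606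
  have t1047 : n295 * (1 : Q) = n295 := Lp.mul_one' _
  have t1050 : n296 * (1 : Q) = n296 := Lp.mul_one' _
  have t1060 : x * n298 = n299 := ufr hU (rt t1013 ((m104.symm).trans ((m53.symm).trans (m1))) rfl rfl) (rt t96 rfl rfl (m53.trans (m104))) t1045 t1047 t1048 t1050 t1051 t1054 t1057
  have m264 : n456 = n299 := mc t1606 t1060 rfl ((m104.symm).trans (m263))
  have m279 : n296 = n57 := ma t1057 t1617 ((m10.symm).trans ((m30.symm).trans (m278))) (m264.symm)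
  have m280 : n58 = n293 := mb t200 t1048 rfl (m279.symm)
  obtain ⟨n117, t412⟩ : ∃ a, a * n72 = n11 := ⟨_, Lp.div_mul' _ _⟩
  obtain ⟨n118, t415⟩ : ∃ c, n117 * n11 = c := ⟨_, rfl⟩
  have t416 : (1 : Q) * n118 = n118 := Lp.one_mul' _
  have t418 : (1 : Q) * n58 = n118 := ufr hU t249 t248 (rt t248 rfl (m1) rfl) t249 (rt t34 rfl (m1) rfl) t412 t34 t197 t415
  have m45 : n118 = n58 := mb t416 t418 rfl rfl
  have m281 : n448 = n117 := ma t1579 t415 ((m104.symm).trans (m53.symm)) (m157.trans (m256.trans ((m280.symm).trans (m45.symm))))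
  have t1688 : n58 * n480 = n447 := ufr hU (rt t1276 (m256.trans (m280.symm)) rfl rfl) t1279 t1279 t1276 (rt t152 (m256.trans (m280.symm)) rfl rfl) t412 t152 t1685 (rt t1576 (m281) rfl rfl)
  have m283 : n75 = n480 := mb t1573 t1688 (m256.trans (m280.symm)) rfl
  have t1686 : (1 : Q) * n480 = n480 := Lp.one_mul' _
  have t1692 : G * n481 = n480 := ufr hU (rt t1011 rfl ((m104.symm).trans ((m53.symm).trans (m1))) rfl) (rt t616 (m249) rfl (m58.trans ((m26.symm).trans (m96.trans (m105))))) (rt t1286 ((m87.symm).trans (m107)) (m255) rfl) (rt t1282 rfl ((m104.symm).trans ((m53.symm).trans (m1))) (m257)) t155 (rt t1055 rfl ((m263.symm).trans ((m53.symm).trans (m1))) ((m263.symm).trans (m53.symm))) (rt t1685 rfl (m283.symm) rfl) t1689 (rt t1686 rfl (m283.symm) rfl)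
  have t1690 : (1 : Q) * n481 = n481 := Lp.one_mul' _
  have t1704 : p * n133 = n481 := ufr hU t103 t1689 (rt t1697 ((m286.symm).trans ((m216.symm).trans ((m87.symm).trans (m107)))) rfl rfl) (rt t1435 rfl ((m253.symm).trans (m92)) rfl) (rt t550 rfl (m52.symm) rfl) (rt t1103 rfl ((m277.symm).trans (m90)) ((m277.symm).trans (m90.trans (m33.symm)))) t1692 (rt t613 (m249) rfl (m283)) t1690
  have t580 : G * n110 = n75 := ufr hU t149 t394 t247 (rt t82 rfl rfl (m23.symm)) t12 t6 t391 t389 (rt t262 rfl (m44) rfl)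
  have m284 : n110 = n481 := mb t580 t1692 rfl (m283)
  have m287 : n224 = n133 := mb t795 t1704 rfl (m284)
  have t799 : (1 : Q) * n225 = n225 := Lp.one_mul' _
  have t20 : q * P = (1 : Q) := hP
  have t23 : P * q = (1 : Q) := inv2 hU t20
  have t17 : x * p = q := hq
  have m9 : q = n27 := mc t17 t92 rfl rfl
  have t801 : (1 : Q) * n224 = n225 := ufr hU (rt t288 rfl (m29.symm) rfl) (rt t89 rfl rfl (m29)) (rt t497 (m49) rfl rfl) (rt t241 rfl rfl ((m22.symm).trans (m49.symm))) t790 (rt t23 rfl (m9) (m78.symm)) (rt t388 (m24) (m1.symm) rfl) t795 t798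
  have m79 : n225 = n224 := mb t799 t801 rfl rfl
  have m288 : n134 = P := ma t474 t798 (m1.symm) ((m287.symm).trans (m79.symm))
  exact ((m288.symm).trans (m191.symm))

end H48UFN
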